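import Mathlib

/-!
# Divided differences of the monic Chebyshev polynomials
-/

set_option autoImplicit false

open Finset Polynomial

namespace Pool.Agent.K8h8.FE

/-- the polynomials with `cc j (z + z⁻¹) = z ^ j + z ^ (-j)` -/
noncomputable def cc : ℕ → ℂ[X]
  | 0 => C 2
  | 1 => X
  | n + 2 => X * cc (n + 1) - cc n

/-- the same, with `1` for `j = 0` -/
noncomputable def pp (j : ℕ) : ℂ[X] := if j = 0 then 1 else cc j

lemma cc_zero : cc 0 = C 2 := rfl
lemma cc_one : cc 1 = X := rfl
lemma cc_succ (n : ℕ) : cc (n + 2) = X * cc (n + 1) - cc n := rfl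
lemma pp_zero : pp 0 = 1 := rfl
lemma pp_succ (n : ℕ) : pp (n + 1) = cc (n + 1) := rfl

lemma cc_monic (n : ℕ) : (cc (n + 1)).Monic ∧ (cc (n + 1)).natDegree = n + 1 := by
  induction n using Nat.strong_induction_on with
  | _ n ih =>
    match n with
    | 0 => exact ⟨monic_X, natDegree_X⟩
    | 1 =>
      have h : cc 2 = X ^ 2 - C 2 := by
        rw [cc_succ, cc_one, cc_zero, sq]
      have h2 : (cc 2).Monic := by
        rw [h]
        exact monic_X_pow_sub_C _ (by norm_num)
      refine ⟨h2, ?_⟩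
      change (cc 2).natDegree = 2
      rw [h]
      exact natDegree_X_pow_sub_C
    | m + 2 =>
      obtain ⟨h1, h2⟩ := ih (m + 1) (by omega)
      obtain ⟨h3, h4⟩ := ih m (by omega)
      have h5 : (X * cc (m + 1 + 1)).Monic := monic_X.mul h1
      have h6 : (X * cc (m + 1 + 1)).natDegree = m + 3 := by
        rw [natDegree_X_mul h1.ne_zero, h2]
      have hlt : (cc (m + 1)).natDegree < (X * cc (m + 1 + 1)).natDegree := by
        rw [h6, h4]; omega
      constructor
      · rw [cc_succ (m + 1)]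
        exact h5.sub_of_left (degree_lt_degree hlt)
      · rw [cc_succ (m + 1), natDegree_sub_eq_left_of_natDegree_lt hlt, h6]

lemma pp_monic (n : ℕ) : (pp n).Monic := by
  cases n with
  | zero => exact monic_one
  | succ n => exact (cc_monic n).1

lemma pp_natDegree (n : ℕ) : (pp n).natDegree = n := by
  cases n with
  | zero => exact natDegree_one
  | succ n => exact (cc_monic n).2

lemma cc_eval {z : ℂ} (hz : z ≠ 0) (n : ℕ) : (cc n).eval (z + z⁻¹) = z ^ n + z⁻¹ ^ n := by
  induction n using Nat.strong_induction_on with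
  | _ n ih =>
    match n with
    | 0 => rw [cc_zero, eval_C]; norm_num
    | 1 => rw [cc_one, eval_X, pow_one, pow_one]
    | m + 2 =>
      rw [cc_succ, eval_sub, eval_mul, eval_X, ih (m + 1) (by omega), ih m (by omega)]
      have h : z * z⁻¹ = 1 := mul_inv_cancel₀ hz
      linear_combination (z⁻¹ ^ m + z ^ m) * h

/-- the Chebyshev polynomials of the second kind -/
noncomputable def uu (v : ℂ) : ℕ → ℂ
  | 0 => 1
  | 1 => v
  | n + 2 => v * uu v (n + 1) - uu v n

lemma uu_zero (v : ℂ) : uu v 0 = 1 := rfl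
lemma uu_one (v : ℂ) : uu v 1 = v := rfl
lemma uu_succ (v : ℂ) (n : ℕ) : uu v (n + 2) = v * uu v (n + 1) - uu v n := rfl

lemma uu_rec {z : ℂ} (hz : z ≠ 0) (n : ℕ) :
    uu (z + z⁻¹) (n + 1) = z ^ (n + 1) + z⁻¹ * uu (z + z⁻¹) n := by
  induction n with
  | zero => rw [uu_zero, uu_one]; ring
  | succ n ih =>
    have h1 : z * uu (z + z⁻¹) (n + 1) = z ^ (n + 2) + uu (z + z⁻¹) n := by
      rw [ih]
      field_simp
      ring
    rw [uu_succ]
    linear_combination h1

lemma uu_bound {z : ℂ} (hz : ‖z‖ = 1) (n : ℕ) : ‖uu (z + z⁻¹) n‖ ≤ n + 1 := by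
  have hz0 : z ≠ 0 := by
    rintro rfl
    simp at hz
  induction n with
  | zero => rw [uu_zero]; simp
  | succ n ih =>
    rw [uu_rec hz0]
    refine (norm_add_le _ _).trans ?_
    rw [norm_pow, norm_mul, norm_inv, hz, one_pow, inv_one, one_mul]
    push_cast
    linarith

/-- convolution with the Chebyshev polynomials of the second kind -/
noncomputable def conv (v : ℂ) (a : ℕ → ℂ) (j : ℕ) : ℂ :=
  ∑ i ∈ range j, uu v i * a (j - 1 - i)

lemma conv_zero (v : ℂ) (a : ℕ → ℂ) : conv v a 0 = 0 := by simp [conv]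

lemma conv_one (v : ℂ) (a : ℕ → ℂ) : conv v a 1 = a 0 := by simp [conv, uu_zero]

lemma conv_succ (v : ℂ) (a : ℕ → ℂ) (j : ℕ) :
    conv v a (j + 2) = a (j + 1) + v * conv v a (j + 1) - conv v a j := by
  unfold conv
  rw [sum_range_succ', sum_range_succ', sum_range_succ' (fun i => uu v i * a (j + 1 - 1 - i)) j,
    mul_add, mul_sum]
  have h1 : ∀ i ∈ range j, uu v (i + 1 + 1) * a (j + 2 - 1 - (i + 1 + 1)) =
      v * (uu v (i + 1) * a (j + 1 - 1 - (i + 1))) - uu v i * a (j - 1 - i) := by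
    intro i hi
    have hi' := mem_range.1 hi
    have e1 : j + 2 - 1 - (i + 1 + 1) = j - 1 - i := by omega
    have e2 : j + 1 - 1 - (i + 1) = j - 1 - i := by omega
    rw [e1, e2, uu_succ]
    ring
  rw [sum_congr rfl h1, sum_sub_distrib]
  have e3 : j + 2 - 1 - (0 + 1) = j := by omega
  have e4 : j + 2 - 1 - 0 = j + 1 := by omega
  have e5 : j + 1 - 1 - 0 = j := by omega
  rw [e3, e4, e5, uu_zero, show (0 : ℕ) + 1 = 1 from rfl, uu_one]
  ring

/-- iterated divided differences -/
noncomputable def Q : List ℂ → ℕ → ℂ → ℂ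
  | [], j, x => (pp j).eval x
  | v :: vs, j, x => conv v (fun k => Q vs k x) j

lemma Q_nil (j : ℕ) (x : ℂ) : Q [] j x = (pp j).eval x := rfl
lemma Q_cons (v : ℂ) (vs : List ℂ) (j : ℕ) (x : ℂ) :
    Q (v :: vs) j x = conv v (fun k => Q vs k x) j := rfl

lemma Q_base (j : ℕ) (x v : ℂ) :
    (pp j).eval x - (pp j).eval v = (x - v) * conv v (fun k => (pp k).eval x) j := by
  induction j using Nat.strong_induction_on with
  | _ j ih =>
    match j with
    | 0 => rw [conv_zero, pp_zero]; simp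
    | 1 => rw [conv_one, pp_zero, pp_succ, cc_one]; simp
    | m + 2 =>
      have h1 := ih (m + 1) (by omega)
      have h2 := ih m (by omega)
      rw [conv_succ]
      have h3 : (pp (m + 2)).eval x - (pp (m + 2)).eval v =
          (x * (pp (m + 1)).eval x - (pp m).eval x) - (v * (pp (m + 1)).eval v - (pp m).eval v) := by
        cases m with
        | zero =>
          rw [pp_succ, pp_succ, pp_zero, cc_succ, cc_one, cc_zero]
          simp
        | succ m =>
          rw [pp_succ, pp_succ, pp_succ, cc_succ (m + 1)]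
          simp only [eval_sub, eval_mul, eval_X]
      rw [h3]
      linear_combination v * h1 - h2

lemma Q_diff (vs : List ℂ) (j : ℕ) (x y : ℂ) :
    Q vs j x - Q vs j y = (x - y) * Q (vs ++ [y]) j x := by
  induction vs generalizing j with
  | nil =>
    rw [List.nil_append, Q_cons]
    exact Q_base j x y
  | cons v vs ih =>
    rw [List.cons_append, Q_cons, Q_cons, Q_cons]
    unfold conv
    rw [← sum_sub_distrib, mul_sum]
    refine sum_congr rfl fun i _ => ?_
    rw [← mul_sub, ih]
    ring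

/-- Newton's formula -/
lemma newton (v : ℕ → ℂ) (j n : ℕ) (x : ℂ) :
    (pp j).eval x = ∑ k ∈ range n, Q ((List.range k).map v) j (v k) * ∏ l ∈ range k, (x - v l) +
      Q ((List.range n).map v) j x * ∏ l ∈ range n, (x - v l) := by
  induction n with
  | zero => simp [Q_nil]
  | succ n ih =>
    rw [ih, sum_range_succ, prod_range_succ, List.range_succ, List.map_append, List.map_singleton]
    have h := Q_diff ((List.range n).map v) j x (v n)
    linear_combination (∏ l ∈ range n, (x - v l)) * h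

lemma sum_exp_le {s : ℝ} (hs : 0 < s) (j : ℕ) :
    ∑ i ∈ range j, ((i : ℝ) + 1) * Real.exp (-(s * (i + 1))) ≤ 1 / s ^ 2 := by
  set q := Real.exp (-s) with hq
  have hq0 : 0 < q := Real.exp_pos _
  have hq1 : q < 1 := by
    rw [hq, Real.exp_lt_one_iff]
    linarith
  have h1 : ∀ i : ℕ, Real.exp (-(s * ((i : ℝ) + 1))) = q ^ (i + 1) := by
    intro i
    rw [hq, ← Real.exp_nat_mul]
    congr 1
    push_cast
    ring
  simp_rw [h1]
  have h2 : ∀ j : ℕ, (1 - q) ^ 2 * ∑ i ∈ range j, ((i : ℝ) + 1) * q ^ (i + 1) =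
      q - (j + 1) * q ^ (j + 1) + j * q ^ (j + 2) := by
    intro j
    induction j with
    | zero => simp
    | succ j ih =>
      rw [sum_range_succ, mul_add, ih]
      push_cast
      ring
  have h3 : (1 - q) ^ 2 * ∑ i ∈ range j, ((i : ℝ) + 1) * q ^ (i + 1) ≤ q := by
    rw [h2]
    have h4 : 0 ≤ q ^ (j + 1) := by positivity
    have h5 : (j : ℝ) * q ^ (j + 2) ≤ j * q ^ (j + 1) := by
      apply mul_le_mul_of_nonneg_left _ (by positivity)
      rw [pow_succ q (j + 1)]
      nlinarith
    nlinarith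
  have h6 : s ^ 2 * q ≤ (1 - q) ^ 2 := by
    set e := Real.exp (s / 2) with he
    have he0 : 0 < e := Real.exp_pos _
    have hqe : q * (e * e) = 1 := by
      rw [hq, he, ← Real.exp_add, ← Real.exp_add]
      simp
    have hsh : s / 2 ≤ Real.sinh (s / 2) := Real.self_le_sinh_iff.2 (by linarith)
    rw [Real.sinh_eq, Real.exp_neg, ← he] at hsh
    have h7 : s ≤ e - e⁻¹ := by linarith
    have h8 : s * e ≤ e * e - 1 := by
      calc s * e ≤ (e - e⁻¹) * e := by gcongr
        _ = e * e - 1 := by field_simp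
    have h9 : (s * e) ^ 2 ≤ (e * e - 1) ^ 2 := pow_le_pow_left₀ (by positivity) h8 2
    have h10 : q ^ 2 * (s * e) ^ 2 ≤ q ^ 2 * (e * e - 1) ^ 2 :=
      mul_le_mul_of_nonneg_left h9 (by positivity)
    have h11 : q ^ 2 * (s * e) ^ 2 = s ^ 2 * q := by
      calc q ^ 2 * (s * e) ^ 2 = s ^ 2 * q * (q * (e * e)) := by ring
        _ = _ := by rw [hqe, mul_one]
    have h12 : q ^ 2 * (e * e - 1) ^ 2 = (1 - q) ^ 2 := by
      calc q ^ 2 * (e * e - 1) ^ 2 = (q * (e * e) - q) ^ 2 := by ring
        _ = _ := by rw [hqe]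
    rw [← h11, ← h12]
    exact h10
  rw [le_div_iff₀ (by positivity)]
  have h13 : 0 ≤ ∑ i ∈ range j, ((i : ℝ) + 1) * q ^ (i + 1) :=
    sum_nonneg fun i _ => by positivity
  have h14 : s ^ 2 * q * ∑ i ∈ range j, ((i : ℝ) + 1) * q ^ (i + 1) ≤ q :=
    (mul_le_mul_of_nonneg_right h6 h13).trans h3
  have h15 : q * ((∑ i ∈ range j, ((i : ℝ) + 1) * q ^ (i + 1)) * s ^ 2) ≤ q * 1 := by
    rw [mul_one]
    linarith
  exact le_of_mul_le_mul_left h15 hq0

/-- the points `z + z⁻¹` with `|z| = 1` -/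
def Good (v : ℂ) : Prop := ∃ z : ℂ, ‖z‖ = 1 ∧ v = z + z⁻¹

lemma Q_bound {s : ℝ} (hs : 0 < s) (vs : List ℂ) (hvs : ∀ v ∈ vs, Good v) (j : ℕ) {x : ℂ}
    (hx : Good x) : ‖Q vs j x‖ ≤ 2 * Real.exp (s * j) / (s ^ 2) ^ vs.length := by
  induction vs generalizing j with
  | nil =>
    obtain ⟨z, hz, rfl⟩ := hx
    have hz0 : z ≠ 0 := by
      rintro rfl
      simp at hz
    have h1 : 1 ≤ Real.exp (s * j) := Real.one_le_exp (by positivity)
    rw [Q_nil, List.length_nil, pow_zero, div_one]
    cases j with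
    | zero =>
      rw [pp_zero, eval_one, norm_one]
      linarith
    | succ j =>
      rw [pp_succ, cc_eval hz0]
      refine (norm_add_le _ _).trans ?_
      rw [norm_pow, norm_pow, norm_inv, hz, inv_one, one_pow]
      linarith
  | cons v vs ih =>
    obtain ⟨w, hw, hvw⟩ := hvs v (by simp)
    rw [Q_cons]
    unfold conv
    refine (norm_sum_le _ _).trans ?_
    have h1 : ∀ i ∈ range j, ‖uu v i * Q vs (j - 1 - i) x‖ ≤
        (((i : ℝ) + 1) * Real.exp (-(s * (i + 1)))) *
          (2 * Real.exp (s * j) / (s ^ 2) ^ vs.length) := by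
      intro i hi
      have hi' := mem_range.1 hi
      rw [norm_mul]
      have h2 : ‖uu v i‖ ≤ i + 1 := by
        rw [hvw]
        exact uu_bound hw i
      have h3 := ih (fun v hv => hvs v (by simp [hv])) (j - 1 - i)
      have h4 : ((j - 1 - i : ℕ) : ℝ) = j - 1 - i := by
        rw [Nat.cast_sub (by omega), Nat.cast_sub (by omega)]
        simp
      have h5 : Real.exp (s * (j - 1 - i : ℕ)) = Real.exp (-(s * (i + 1))) * Real.exp (s * j) := by
        rw [← Real.exp_add, h4]
        congr 1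
        ring
      rw [h5] at h3
      calc ‖uu v i‖ * ‖Q vs (j - 1 - i) x‖ ≤ (i + 1) *
            (2 * (Real.exp (-(s * (i + 1))) * Real.exp (s * j)) / (s ^ 2) ^ vs.length) := by
            gcongr
        _ = _ := by ring
    refine (sum_le_sum h1).trans ?_
    rw [← sum_mul]
    calc (∑ i ∈ range j, ((i : ℝ) + 1) * Real.exp (-(s * (i + 1)))) *
          (2 * Real.exp (s * j) / (s ^ 2) ^ vs.length)
        ≤ (1 / s ^ 2) * (2 * Real.exp (s * j) / (s ^ 2) ^ vs.length) := by
          gcongr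
          exact sum_exp_le hs j
      _ = _ := by
          rw [List.length_cons, pow_succ]
          field_simp
          ring

end Pool.Agent.K8h8.FE
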