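import Mathlib
import Pool.Agent.Q191.MV.Vand
import Pool.Agent.K8h8.FE.Cheb

/-!
# Vandermonde determinants of points near `[-2, 2]`, some of them close to an end point
-/

set_option autoImplicit false

open Finset Polynomial

namespace Pool.Agent.K8h8.FE

/-- the points in the ellipse `{z + z⁻¹ : |z| = ρ}` -/
def Reg (ρ : ℝ) (w : ℂ) : Prop := ‖w - 2‖ + ‖w + 2‖ ≤ 2 * (ρ + ρ⁻¹)

lemma exists_z (w : ℂ) : ∃ z : ℂ, z ≠ 0 ∧ z + z⁻¹ = w := by
  obtain ⟨d, hd⟩ := IsAlgClosed.exists_pow_nat_eq (w ^ 2 - 4) (n := 2) (by norm_num)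
  have h1 : ((w + d) / 2) * ((w - d) / 2) = 1 := by linear_combination (-1 / 4) * hd
  refine ⟨(w + d) / 2, left_ne_zero_of_mul_eq_one h1, ?_⟩
  rw [inv_eq_of_mul_eq_one_right h1]
  ring

lemma norm_add_eq {z : ℂ} (hz : z ≠ 0) :
    ‖z + z⁻¹ - 2‖ + ‖z + z⁻¹ + 2‖ = 2 * (‖z‖ + ‖z‖⁻¹) := by
  have h0 : 0 < ‖z‖ := norm_pos_iff.2 hz
  have h1 : z + z⁻¹ - 2 = (z - 1) ^ 2 / z := by field_simp; ring
  have h2 : z + z⁻¹ + 2 = (z + 1) ^ 2 / z := by field_simp; ring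
  have h3 : ‖z + 1‖ ^ 2 + ‖z - 1‖ ^ 2 = 2 * (‖z‖ ^ 2 + ‖(1 : ℂ)‖ ^ 2) :=
    parallelogram_law_with_norm ℝ z 1
  rw [h1, h2, norm_div, norm_div, norm_pow, norm_pow]
  rw [norm_one] at h3
  field_simp
  nlinarith

lemma le_of_add_inv {a ρ : ℝ} (ha : 1 ≤ a) (hρ : 1 ≤ ρ) (h : a + a⁻¹ ≤ ρ + ρ⁻¹) : a ≤ ρ := by
  by_contra hc
  push Not at hc
  have ha0 : 0 < a := by linarith
  have hρ0 : 0 < ρ := by linarith
  have h1 : a * ρ * (a + a⁻¹) ≤ a * ρ * (ρ + ρ⁻¹) := mul_le_mul_of_nonneg_left h (by positivity)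
  have h2 : a * ρ * (a + a⁻¹) = ρ * a ^ 2 + ρ := by field_simp
  have h3 : a * ρ * (ρ + ρ⁻¹) = a * ρ ^ 2 + a := by field_simp
  rw [h2, h3] at h1
  have h4 : (a - ρ) * (a * ρ - 1) ≤ 0 := by nlinarith
  have h5 : 1 < a * ρ := by nlinarith
  nlinarith

lemma reg_z {ρ : ℝ} (hρ : 1 ≤ ρ) {w : ℂ} (hw : Reg ρ w) :
    ∃ z : ℂ, 1 ≤ ‖z‖ ∧ ‖z‖ ≤ ρ ∧ w = z + z⁻¹ := by
  obtain ⟨z, hz, hzw⟩ := exists_z w
  have h0 : 0 < ‖z‖ := norm_pos_iff.2 hz
  unfold Reg at hw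
  rw [← hzw, norm_add_eq hz] at hw
  have h1 : ‖z‖ + ‖z‖⁻¹ ≤ ρ + ρ⁻¹ := by linarith
  rcases le_total 1 ‖z‖ with h | h
  · exact ⟨z, h, le_of_add_inv h hρ h1, hzw.symm⟩
  · have h2 : 1 ≤ ‖z⁻¹‖ := by
      rw [norm_inv]
      exact (one_le_inv₀ h0).2 h
    refine ⟨z⁻¹, h2, le_of_add_inv h2 hρ ?_, ?_⟩
    · rw [norm_inv, inv_inv, add_comm]
      exact h1
    · rw [← hzw, inv_inv, add_comm]

lemma reg_of_z {ρ : ℝ} (hρ : 1 ≤ ρ) {z : ℂ} (hz : z ≠ 0) (h1 : ‖z‖ ≤ ρ) (h2 : ‖z⁻¹‖ ≤ ρ) :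
    Reg ρ (z + z⁻¹) := by
  unfold Reg
  rw [norm_add_eq hz]
  have h0 : 0 < ‖z‖ := norm_pos_iff.2 hz
  have hρ0 : 0 < ρ := by linarith
  rw [norm_inv] at h2
  have h3 : 1 ≤ ρ * ‖z‖ := by
    rw [inv_le_comm₀ h0 hρ0] at h2
    have := mul_le_mul_of_nonneg_left h2 hρ0.le
    rwa [mul_inv_cancel₀ hρ0.ne'] at this
  have h4 : ‖z‖ + ‖z‖⁻¹ ≤ ρ + ρ⁻¹ := by
    have h5 : ρ + ρ⁻¹ - (‖z‖ + ‖z‖⁻¹) = (ρ - ‖z‖) * (ρ * ‖z‖ - 1) / (ρ * ‖z‖) := by
      field_simp
      ring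
    have h6 : 0 ≤ (ρ - ‖z‖) * (ρ * ‖z‖ - 1) / (ρ * ‖z‖) :=
      div_nonneg (mul_nonneg (by linarith) (by linarith)) (by positivity)
    linarith
  linarith

lemma pp_bound {ρ : ℝ} (hρ : 1 ≤ ρ) {w : ℂ} (hw : Reg ρ w) (j : ℕ) :
    ‖(pp j).eval w‖ ≤ 2 * ρ ^ j := by
  obtain ⟨z, h1, h2, rfl⟩ := reg_z hρ hw
  have hz : z ≠ 0 := norm_pos_iff.1 (by linarith)
  cases j with
  | zero => rw [pp_zero, eval_one, norm_one]; norm_num
  | succ j =>
    rw [pp_succ, cc_eval hz]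
    refine (norm_add_le _ _).trans ?_
    rw [norm_pow, norm_pow, norm_inv]
    have h3 : ‖z‖ ^ (j + 1) ≤ ρ ^ (j + 1) := pow_le_pow_left₀ (norm_nonneg _) h2 _
    have h4 : ‖z‖⁻¹ ^ (j + 1) ≤ 1 :=
      pow_le_one₀ (by positivity) (inv_le_one_of_one_le₀ h1)
    have h5 : (1 : ℝ) ≤ ρ ^ (j + 1) := one_le_pow₀ hρ
    linarith

lemma good_of_real {x : ℝ} (h1 : -2 ≤ x) (h2 : x ≤ 2) : Good (x : ℂ) := by
  have h3 : 0 ≤ 1 - (x / 2) ^ 2 := by nlinarith
  set z : ℂ := ⟨x / 2, Real.sqrt (1 - (x / 2) ^ 2)⟩ with hz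
  have h4 : Complex.normSq z = 1 := by
    rw [Complex.normSq_apply]
    change x / 2 * (x / 2) + Real.sqrt (1 - (x / 2) ^ 2) * Real.sqrt (1 - (x / 2) ^ 2) = 1
    rw [Real.mul_self_sqrt h3]
    ring
  have h5 : ‖z‖ = 1 := by
    have h6 : ‖z‖ ^ 2 = 1 := by rw [← Complex.normSq_eq_norm_sq, h4]
    nlinarith [norm_nonneg z]
  refine ⟨z, h5, ?_⟩
  rw [Complex.inv_def, h4]
  apply Complex.ext
  · simp [hz]
  · simp [hz]

lemma det_pp {n : ℕ} (y : Fin n → ℂ) :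
    (Matrix.of fun i j : Fin n => (pp (j : ℕ)).eval (y i)).det = (Matrix.vandermonde y).det :=
  (Matrix.det_eval_matrixOfPolynomials_eq_det_vandermonde y (fun j : Fin n => pp (j : ℕ))
    (fun _ => pp_natDegree _) (fun _ => pp_monic _)).symm

/-- all the points in the region -/
theorem det_reg {ρ : ℝ} (hρ : 1 ≤ ρ) {M : ℕ} (y : Fin M → ℂ) (hy : ∀ i, Reg ρ (y i)) :
    ‖(Matrix.vandermonde y).det‖ ^ 2 ≤ (4 * M * (ρ ^ M) ^ 2) ^ M := by
  rw [← det_pp]
  refine (Pool.Agent.Q191.MV.det_le _).trans ?_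
  have h1 : ∀ i : Fin M, ∑ j : Fin M, ‖(Matrix.of fun i j : Fin M => (pp (j : ℕ)).eval (y i)) i j‖ ^ 2 ≤
      4 * M * (ρ ^ M) ^ 2 := by
    intro i
    have h2 : ∀ j ∈ (univ : Finset (Fin M)),
        ‖(Matrix.of fun i j : Fin M => (pp (j : ℕ)).eval (y i)) i j‖ ^ 2 ≤ 4 * (ρ ^ M) ^ 2 := by
      intro j _
      rw [Matrix.of_apply]
      have h3 := pp_bound hρ (hy i) (j : ℕ)
      have h4 : ρ ^ (j : ℕ) ≤ ρ ^ M := pow_le_pow_right₀ hρ j.2.le
      calc ‖(pp (j : ℕ)).eval (y i)‖ ^ 2 ≤ (2 * ρ ^ M) ^ 2 :=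
            pow_le_pow_left₀ (norm_nonneg _) (h3.trans (by linarith)) 2
        _ = _ := by ring
    refine (sum_le_sum h2).trans (le_of_eq ?_)
    rw [sum_const, card_univ, Fintype.card_fin, nsmul_eq_mul]
    ring
  refine (prod_le_prod (fun i _ => sum_nonneg fun j _ => by positivity) fun i _ => h1 i).trans ?_
  rw [prod_const, card_univ, Fintype.card_fin]

/-- scaling -/
lemma det_scale {n : ℕ} (y : Fin n → ℂ) (a b : ℂ) :
    ‖(Matrix.vandermonde fun i => a * y i + b).det‖ ^ 2 =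
      ‖a‖ ^ (n * (n - 1)) * ‖(Matrix.vandermonde y).det‖ ^ 2 := by
  rw [Matrix.det_vandermonde_add (fun i => a * y i) b]
  have h1 : Matrix.vandermonde (fun i => a * y i) =
      Matrix.of fun i j : Fin n => a ^ (j : ℕ) * Matrix.vandermonde y i j := by
    ext i j
    rw [Matrix.of_apply, Matrix.vandermonde_apply, Matrix.vandermonde_apply, mul_pow]
  rw [h1, Matrix.det_mul_row, norm_mul, norm_prod, mul_pow, ← prod_pow]
  congr 1
  have h2 : ∀ j : Fin n, ‖a ^ (j : ℕ)‖ ^ 2 = ‖a‖ ^ (2 * (j : ℕ)) := by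
    intro j
    rw [norm_pow, ← pow_mul, mul_comm]
  simp_rw [h2]
  rw [prod_pow_eq_pow_sum, Fin.sum_univ_eq_sum_range (fun j => 2 * j) n, ← mul_sum,
    mul_comm 2, sum_range_id_mul_two]

/-- `e ^ (2 k) (M / (2 k)) ^ (2 k)` -/
noncomputable def AA (M k : ℕ) : ℝ := Real.exp (2 * k) * ((M : ℝ) / (2 * k)) ^ (2 * k)

lemma AA_pos {M : ℕ} (hM : 0 < M) (k : ℕ) : 0 < AA M k := by
  unfold AA
  rcases Nat.eq_zero_or_pos k with rfl | hk
  · simp
  · have h1 : (0 : ℝ) < M := by exact_mod_cast hM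
    have h2 : (0 : ℝ) < k := by exact_mod_cast hk
    positivity

lemma Q_row {M : ℕ} (vs : List ℂ) (hvs : ∀ v ∈ vs, Good v) {j : ℕ} (hj : j < M) {x : ℂ}
    (hx : Good x) : ‖Q vs j x‖ ≤ 2 * AA M vs.length := by
  have hM : (0 : ℝ) < M := by exact_mod_cast (by omega : 0 < M)
  rcases Nat.eq_zero_or_pos vs.length with h | h
  · have h1 : vs = [] := List.eq_nil_of_length_eq_zero h
    subst h1
    have h2 : ∀ s : ℝ, 0 < s → ‖Q [] j x‖ ≤ 2 * Real.exp (s * j) := by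
      intro s hs
      have := Q_bound hs [] hvs j hx
      simpa using this
    have h3 : ‖Q [] j x‖ ≤ 2 := by
      obtain ⟨z, hz, rfl⟩ := hx
      have hz0 : z ≠ 0 := by
        rintro rfl
        simp at hz
      rw [Q_nil]
      have h4 := pp_bound le_rfl (reg_of_z (ρ := 1) le_rfl hz0 hz.le (by rw [norm_inv, hz, inv_one])) j
      simpa using h4
    unfold AA
    simpa using h3
  · have hk : (0 : ℝ) < vs.length := by exact_mod_cast h
    set k := vs.length with hkdef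
    have hs : (0 : ℝ) < 2 * k / M := by positivity
    have h1 := Q_bound hs vs hvs j hx
    rw [← hkdef] at h1
    refine h1.trans ?_
    unfold AA
    have h2 : Real.exp (2 * k / M * j) ≤ Real.exp (2 * k) := by
      apply Real.exp_le_exp.2
      have h3 : (j : ℝ) ≤ M := by exact_mod_cast hj.le
      calc 2 * k / M * (j : ℝ) ≤ 2 * k / M * M := by gcongr
        _ = 2 * k := by field_simp
    have h4 : ((2 * (k : ℝ) / M) ^ 2) ^ k = (((M : ℝ) / (2 * (k : ℝ))) ^ (2 * k))⁻¹ := by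
      rw [← pow_mul, ← inv_pow, inv_div]
    rw [h4, div_inv_eq_mul, mul_assoc]
    gcongr

/-- the transition matrix to divided differences -/
noncomputable def TT {M : ℕ} (m : ℕ) (v : ℕ → ℂ) : Matrix (Fin M) (Fin M) ℂ :=
  Matrix.of fun i k => if (i : ℕ) < m then ∏ l ∈ range (k : ℕ), (v i - v l) else
    if i = k then 1 else 0

/-- the matrix of the divided differences -/
noncomputable def RR {M : ℕ} (m : ℕ) (v : ℕ → ℂ) : Matrix (Fin M) (Fin M) ℂ :=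
  Matrix.of fun i j => if (i : ℕ) < m then Q ((List.range (i : ℕ)).map v) j (v i) else
    (pp (j : ℕ)).eval (v i)

lemma TT_mul_RR {M m : ℕ} (v : ℕ → ℂ) :
    TT (M := M) m v * RR m v = Matrix.of fun i j : Fin M => (pp (j : ℕ)).eval (v i) := by
  ext i j
  rw [Matrix.mul_apply, Matrix.of_apply]
  by_cases hi : (i : ℕ) < m
  · have h1 := newton v j M (v i)
    have h2 : ∏ l ∈ range M, (v i - v l) = 0 :=
      prod_eq_zero (mem_range.2 i.2) (sub_self _)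
    rw [h2, mul_zero, add_zero, ← Fin.sum_univ_eq_sum_range
      (fun k => Q ((List.range k).map v) j (v k) * ∏ l ∈ range k, (v i - v l)) M] at h1
    rw [h1]
    refine sum_congr rfl fun k _ => ?_
    unfold TT RR
    rw [Matrix.of_apply, Matrix.of_apply, if_pos hi]
    by_cases hk : (k : ℕ) < m
    · rw [if_pos hk, mul_comm]
    · have h3 : ∏ l ∈ range (k : ℕ), (v i - v l) = 0 :=
        prod_eq_zero (mem_range.2 (by omega : (i : ℕ) < k)) (sub_self _)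
      rw [h3, zero_mul, mul_zero]
  · unfold TT RR
    simp only [Matrix.of_apply, if_neg hi]
    rw [Finset.sum_eq_single i]
    · rw [if_pos rfl, one_mul, if_neg hi]
    · intro k _ hk
      rw [if_neg (Ne.symm hk), zero_mul]
    · intro h
      exact absurd (mem_univ i) h

lemma det_TT {M m : ℕ} (hm : m ≤ M) (v : ℕ → ℂ) :
    (TT (M := M) m v).det = (Matrix.vandermonde fun i : Fin m => v i).det := by
  have h1 : (TT (M := M) m v).IsLowerTriangular := by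
    intro i j hij
    unfold TT
    have hij' : i < j := hij
    have hij2 : (i : ℕ) < j := hij'
    rw [Matrix.of_apply]
    split_ifs with h2 h3
    · exact prod_eq_zero (mem_range.2 hij2) (sub_self _)
    · exact absurd h3 hij'.ne
    · rfl
  rw [Matrix.det_of_isLowerTriangular _ h1, Matrix.det_vandermonde]
  have h2 : ∏ i : Fin m, ∏ j ∈ Ioi i, (v j - v i) = ∏ j : Fin m, ∏ i ∈ Iio j, (v j - v i) :=
    prod_comm' (fun x y => by simp)
  rw [h2]
  have h3 : ∀ j : Fin m, ∏ i ∈ Iio j, (v j - v (i : ℕ)) = ∏ l ∈ range (j : ℕ), (v j - v l) := by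
    intro j
    rw [← Nat.Iio_eq_range, ← Fin.map_valEmbedding_Iio, prod_map]
    rfl
  simp_rw [h3]
  rw [Fin.prod_univ_eq_prod_range (fun j => ∏ l ∈ range j, (v j - v l)) m]
  have h4 : ∀ i : Fin M, TT (M := M) m v i i =
      (fun n : ℕ => if n < m then ∏ l ∈ range n, (v n - v l) else 1) i := by
    intro i
    unfold TT
    rw [Matrix.of_apply, if_pos rfl]
  simp_rw [h4]
  rw [Fin.prod_univ_eq_prod_range (fun n : ℕ => if n < m then ∏ l ∈ range n, (v n - v l) else 1) M]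
  symm
  rw [← prod_subset (range_mono hm)]
  · exact prod_congr rfl fun n hn => by rw [if_pos (mem_range.1 hn)]
  · intro n _ hn
    rw [if_neg (by rwa [mem_range] at hn)]

/-- the points `v i`, `i < m`, are in `[-2, 2]`, the others in the region -/
theorem det_cluster {ρ : ℝ} (hρ : 1 ≤ ρ) {M m : ℕ} (hm : m ≤ M) (v : ℕ → ℂ)
    (hv : ∀ i < m, Good (v i)) (hw : ∀ i, m ≤ i → i < M → Reg ρ (v i)) :
    ‖(Matrix.vandermonde fun i : Fin M => v i).det‖ ^ 2 ≤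
      ‖(Matrix.vandermonde fun i : Fin m => v i).det‖ ^ 2 *
        ((∏ k ∈ range m, AA M k) ^ 2 * (4 * M * (ρ ^ M) ^ 2) ^ M) := by
  rcases Nat.eq_zero_or_pos M with hM | hM
  · subst hM
    have : m = 0 := by omega
    subst this
    simp
  have hMR : (0 : ℝ) < M := by exact_mod_cast hM
  rw [← det_pp (fun i : Fin M => v i), ← TT_mul_RR (m := m) v, Matrix.det_mul, det_TT hm, norm_mul, mul_pow]
  apply mul_le_mul_of_nonneg_left _ (by positivity)
  refine (Pool.Agent.Q191.MV.det_le _).trans ?_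
  have h1 : ∀ i : Fin M, ∑ j : Fin M, ‖RR (M := M) m v i j‖ ^ 2 ≤
      (fun n : ℕ => (if n < m then AA M n else 1) ^ 2 * (4 * M * (ρ ^ M) ^ 2)) i := by
    intro i
    have hρM : (1 : ℝ) ≤ ρ ^ M := one_le_pow₀ hρ
    have h2 : ∀ j ∈ (univ : Finset (Fin M)), ‖RR (M := M) m v i j‖ ^ 2 ≤
        (if (i : ℕ) < m then AA M i else 1) ^ 2 * (4 * (ρ ^ M) ^ 2) := by
      intro j _
      unfold RR
      rw [Matrix.of_apply]
      split_ifs with h3
      · have h4 := Q_row (M := M) ((List.range (i : ℕ)).map v)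
          (by
            intro w hw
            rw [List.mem_map] at hw
            obtain ⟨l, hl, rfl⟩ := hw
            rw [List.mem_range] at hl
            exact hv l (by omega)) j.2 (hv i h3)
        rw [List.length_map, List.length_range] at h4
        have h5 := AA_pos hM (i : ℕ)
        calc _ ≤ (2 * AA M i) ^ 2 := pow_le_pow_left₀ (norm_nonneg _) h4 2
          _ = AA M i ^ 2 * (4 * 1 ^ 2) := by ring
          _ ≤ _ := by gcongr
      · have h4 := pp_bound hρ (hw i (by omega) i.2) (j : ℕ)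
        have h5 : ρ ^ (j : ℕ) ≤ ρ ^ M := pow_le_pow_right₀ hρ j.2.le
        calc _ ≤ (2 * ρ ^ M) ^ 2 := pow_le_pow_left₀ (norm_nonneg _) (h4.trans (by linarith)) 2
          _ = _ := by ring
    refine (sum_le_sum h2).trans (le_of_eq ?_)
    rw [sum_const, card_univ, Fintype.card_fin, nsmul_eq_mul]
    ring
  refine (prod_le_prod (fun i _ => sum_nonneg fun j _ => by positivity) fun i _ => h1 i).trans ?_
  rw [Fin.prod_univ_eq_prod_range
    (fun n : ℕ => (if n < m then AA M n else 1) ^ 2 * (4 * M * (ρ ^ M) ^ 2)) M,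
    prod_mul_distrib, prod_const, card_range, prod_pow]
  apply le_of_eq
  congr 2
  symm
  rw [← prod_subset (range_mono hm)]
  · exact prod_congr rfl fun n hn => by rw [if_pos (mem_range.1 hn)]
  · intro n _ hn
    rw [if_neg (by rwa [mem_range] at hn)]

/-- the points `v i`, `i < m`, are in `[2, 2 + ℓ]`, the others in the region -/
theorem det_good {ρ ℓ : ℝ} (hρ : 1 ≤ ρ) (hℓ0 : 0 < ℓ) {M m : ℕ} (hm : m ≤ M) (v : ℕ → ℂ)
    (hv : ∀ i < m, ∃ x : ℝ, 2 ≤ x ∧ x ≤ 2 + ℓ ∧ v i = x)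
    (hw : ∀ i, m ≤ i → i < M → Reg ρ (v i)) :
    ‖(Matrix.vandermonde fun i : Fin M => v i).det‖ ^ 2 ≤
      (1 + ℓ / 4) ^ (M * (M - 1)) * ((ℓ / 4) ^ (m * (m - 1)) * (4 * m) ^ m *
        ((∏ k ∈ range m, AA M k) ^ 2 * (4 * M * (ρ ^ M) ^ 2) ^ M)) := by
  set lam : ℝ := 1 + ℓ / 4 with hlam
  have hlam1 : 1 ≤ lam := by linarith
  have hlam0 : 0 < lam := by linarith
  have hlamC : (lam : ℂ) ≠ 0 := by exact_mod_cast hlam0.ne'
  set w : ℕ → ℂ := fun i => (v i - (ℓ / 2 : ℝ)) / (lam : ℂ) with hwdef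
  have hvw : ∀ i, v i = (lam : ℂ) * w i + (ℓ / 2 : ℝ) := by
    intro i
    rw [hwdef]
    field_simp
    ring
  have hnl : ‖(lam : ℂ)‖ = lam := by
    rw [Complex.norm_real, Real.norm_of_nonneg hlam0.le]
  have h1 : ∀ n : ℕ, ‖(Matrix.vandermonde fun i : Fin n => v i).det‖ ^ 2 =
      lam ^ (n * (n - 1)) * ‖(Matrix.vandermonde fun i : Fin n => w i).det‖ ^ 2 := by
    intro n
    have h2 := det_scale (fun i : Fin n => w i) (lam : ℂ) ((ℓ / 2 : ℝ) : ℂ)
    rw [hnl] at h2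
    rw [← h2]
    congr 4
    ext i
    exact hvw i
  have h3 : ‖(Matrix.vandermonde fun i : Fin m => w i).det‖ ^ 2 ≤
      (ℓ / 4) ^ (m * (m - 1)) * (4 * m) ^ m := by
    have h4 : ‖(Matrix.vandermonde fun i : Fin m => w i).det‖ ^ 2 ≤
        ‖(Matrix.vandermonde fun i : Fin m => v i).det‖ ^ 2 := by
      rw [h1 m]
      exact le_mul_of_one_le_left (by positivity) (one_le_pow₀ hlam1)
    refine h4.trans ?_
    have hℓC : ((ℓ / 4 : ℝ) : ℂ) ≠ 0 := by exact_mod_cast (by positivity : (ℓ / 4 : ℝ) ≠ 0)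
    set u : ℕ → ℂ := fun i => (v i - ((2 + ℓ / 2 : ℝ) : ℂ)) / ((ℓ / 4 : ℝ) : ℂ) with hu
    have hvu : ∀ i, v i = ((ℓ / 4 : ℝ) : ℂ) * u i + ((2 + ℓ / 2 : ℝ) : ℂ) := by
      intro i
      rw [hu]
      change v i = ((ℓ / 4 : ℝ) : ℂ) * ((v i - ((2 + ℓ / 2 : ℝ) : ℂ)) / ((ℓ / 4 : ℝ) : ℂ)) + _
      rw [mul_div_cancel₀ _ hℓC]
      ring
    have h5 := det_scale (fun i : Fin m => u i) ((ℓ / 4 : ℝ) : ℂ) ((2 + ℓ / 2 : ℝ) : ℂ)
    have h6 : (fun i : Fin m => ((ℓ / 4 : ℝ) : ℂ) * u i + ((2 + ℓ / 2 : ℝ) : ℂ)) =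
        fun i : Fin m => v i := by
      ext i
      exact (hvu i).symm
    rw [h6, Complex.norm_real, Real.norm_of_nonneg (by positivity)] at h5
    rw [h5]
    apply mul_le_mul_of_nonneg_left _ (by positivity)
    have h7 : ∀ i : Fin m, Reg 1 (u i) := by
      intro i
      obtain ⟨x, hx1, hx2, hx3⟩ := hv i i.2
      have h8 : u i = (((x - (2 + ℓ / 2)) / (ℓ / 4) : ℝ) : ℂ) := by
        rw [hu]
        change (v i - ((2 + ℓ / 2 : ℝ) : ℂ)) / ((ℓ / 4 : ℝ) : ℂ) = _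
        rw [hx3]
        push_cast
        rfl
      obtain ⟨z, hz1, hz2⟩ := good_of_real (x := (x - (2 + ℓ / 2)) / (ℓ / 4))
        (by rw [le_div_iff₀ (by positivity)]; linarith)
        (by rw [div_le_iff₀ (by positivity)]; linarith)
      have hz0 : z ≠ 0 := by
        rintro rfl
        simp at hz1
      rw [h8, hz2]
      exact reg_of_z le_rfl hz0 hz1.le (by rw [norm_inv, hz1, inv_one])
    have h9 := det_reg le_rfl (fun i : Fin m => u i) h7
    simpa using h9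
  have h10 := det_cluster hρ hm w
    (by
      intro i hi
      obtain ⟨x, hx1, hx2, hx3⟩ := hv i hi
      have h8 : w i = (((x - ℓ / 2) / lam : ℝ) : ℂ) := by
        rw [hwdef]
        change (v i - ((ℓ / 2 : ℝ) : ℂ)) / (lam : ℂ) = _
        rw [hx3]
        push_cast
        rfl
      rw [h8]
      apply good_of_real
      · rw [le_div_iff₀ hlam0]
        nlinarith
      · rw [div_le_iff₀ hlam0]
        linarith)
    (by
      intro i hi1 hi2
      have h11 := hw i hi1 hi2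
      unfold Reg at h11 ⊢
      have h12 : w i - 2 = (v i - 2 - (ℓ : ℂ)) / (lam : ℂ) := by
        rw [hwdef, eq_div_iff hlamC]
        change ((v i - ((ℓ / 2 : ℝ) : ℂ)) / (lam : ℂ) - 2) * (lam : ℂ) = _
        rw [sub_mul, div_mul_cancel₀ _ hlamC, hlam]
        push_cast
        ring
      have h13 : w i + 2 = (v i + 2) / (lam : ℂ) := by
        rw [hwdef, eq_div_iff hlamC]
        change ((v i - ((ℓ / 2 : ℝ) : ℂ)) / (lam : ℂ) + 2) * (lam : ℂ) = _
        rw [add_mul, div_mul_cancel₀ _ hlamC, hlam]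
        push_cast
        ring
      have h14 : ‖v i - 2 - (ℓ : ℂ)‖ ≤ ‖v i - 2‖ + ℓ := by
        refine (norm_sub_le _ _).trans (le_of_eq ?_)
        rw [Complex.norm_real, Real.norm_of_nonneg hℓ0.le]
      have h15 : 2 ≤ ρ + ρ⁻¹ := by
        have hρ0 : 0 < ρ := by linarith
        have h16 : ρ + ρ⁻¹ - 2 = (ρ - 1) ^ 2 / ρ := by field_simp; ring
        have h17 : 0 ≤ (ρ - 1) ^ 2 / ρ := by positivity
        linarith
      rw [h12, h13, norm_div, norm_div, hnl, ← add_div, div_le_iff₀ hlam0]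
      nlinarith)
  rw [h1 M]
  apply mul_le_mul_of_nonneg_left _ (by positivity)
  refine h10.trans ?_
  exact mul_le_mul_of_nonneg_right h3 (by positivity)

end Pool.Agent.K8h8.FE
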