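import Mathlib
import Pool.Agent.K8h8.FE.Det

/-!
# The final inequality
-/

set_option autoImplicit false

open Finset

namespace Pool.Agent.K8h8.FE

lemma log_le_half {y : ℝ} (hy : 1 ≤ y) : Real.log y ≤ (y - y⁻¹) / 2 := by
  have hy0 : 0 < y := by linarith
  have h := Real.self_le_sinh_iff.2 (Real.log_nonneg hy)
  rwa [Real.sinh_eq, Real.exp_neg, Real.exp_log hy0] at h

lemma hyper (m : ℕ) : ((m : ℝ) ^ 2 - m) / 2 * Real.log m - (m : ℝ) ^ 2 / 4 ≤
    ∑ k ∈ range m, (k : ℝ) * Real.log k := by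
  induction m with
  | zero => simp
  | succ m ih =>
    rw [sum_range_succ]
    rcases Nat.eq_zero_or_pos m with rfl | hm
    · simp
    · have hm0 : (0 : ℝ) < m := by exact_mod_cast hm
      have h1 : Real.log ((m + 1) / m) ≤ (((m : ℝ) + 1) / m - (((m : ℝ) + 1) / m)⁻¹) / 2 :=
        log_le_half (by rw [le_div_iff₀ hm0]; linarith)
      rw [Real.log_div (by positivity) hm0.ne'] at h1
      have h2 : (((m : ℝ) + 1) / m - (((m : ℝ) + 1) / m)⁻¹) / 2 =
          (2 * m + 1) / (2 * (m * (m + 1))) := by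
        field_simp
        ring
      rw [h2] at h1
      have h3 : ((m : ℝ) ^ 2 + m) / 2 * (Real.log (m + 1) - Real.log m) ≤ (2 * m + 1) / 4 := by
        calc _ ≤ ((m : ℝ) ^ 2 + m) / 2 * ((2 * m + 1) / (2 * (m * (m + 1)))) := by gcongr
          _ = _ := by field_simp; ring
      push_cast
      nlinarith

lemma log_AA {M : ℕ} (hM : 0 < M) (k : ℕ) :
    Real.log (AA M k) = 2 * k + 2 * k * Real.log ((M : ℝ) / (2 * k)) := by
  unfold AA
  rcases Nat.eq_zero_or_pos k with rfl | hk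
  · simp
  · have h1 : (0 : ℝ) < M := by exact_mod_cast hM
    have h2 : (0 : ℝ) < k := by exact_mod_cast hk
    rw [Real.log_mul (Real.exp_pos _).ne' (by positivity), Real.log_exp, Real.log_pow]
    push_cast
    ring

lemma log_AA_le {M m r : ℕ} (hm : 0 < m) (hr : 0 < r) (hM : 0 < M) (hMr : M ≤ r * m) (k : ℕ) :
    Real.log (AA M k) ≤ 2 * k * (1 + (Real.log r - Real.log 2) + Real.log m) -
      2 * (k * Real.log k) := by
  rw [log_AA hM]
  rcases Nat.eq_zero_or_pos k with rfl | hk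
  · simp
  · have h1 : (0 : ℝ) < M := by exact_mod_cast hM
    have h2 : (0 : ℝ) < k := by exact_mod_cast hk
    have h3 : (0 : ℝ) < m := by exact_mod_cast hm
    have h4 : (0 : ℝ) < r := by exact_mod_cast hr
    have h5 : (M : ℝ) ≤ r * m := by exact_mod_cast hMr
    have h6 : Real.log ((M : ℝ) / (2 * k)) ≤ Real.log ((r * m : ℝ) / (2 * k)) :=
      Real.log_le_log (by positivity) (by gcongr)
    have h7 : Real.log ((r * m : ℝ) / (2 * k)) =
        Real.log r + Real.log m - (Real.log 2 + Real.log k) := by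
      rw [Real.log_div (by positivity) (by positivity), Real.log_mul h4.ne' h3.ne',
        Real.log_mul (by norm_num) h2.ne']
    rw [h7] at h6
    nlinarith

lemma sum_log_AA {M m r : ℕ} (hm : 0 < m) (hr : 0 < r) (hM : 0 < M) (hMr : M ≤ r * m) :
    ∑ k ∈ range m, Real.log (AA M k) ≤
      (m : ℝ) * (m - 1) * (1 + (Real.log r - Real.log 2)) + (m : ℝ) ^ 2 / 2 := by
  refine (sum_le_sum fun k _ => log_AA_le hm hr hM hMr k).trans ?_
  rw [sum_sub_distrib, ← sum_mul, ← mul_sum, ← mul_sum]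
  have h1 : (2 : ℝ) * ∑ k ∈ range m, (k : ℝ) = m * (m - 1) := by
    have h2 := Finset.sum_range_id_mul_two m
    have h3 : (((∑ k ∈ range m, k) * 2 : ℕ) : ℝ) = ((m * (m - 1) : ℕ) : ℝ) := by rw [h2]
    push_cast [Nat.cast_sub (show 1 ≤ m from hm)] at h3
    linarith
  rw [h1]
  have h4 := hyper m
  nlinarith

lemma log_four {q m : ℝ} (hq : 0 < q) (hm : 0 < m) :
    Real.log (4 * (q * m)) = 2 * Real.log (2 * q) + Real.log (m / q) := by
  have h1 : 4 * (q * m) = (2 * q) ^ 2 * (m / q) := by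
    field_simp
    ring
  rw [h1, Real.log_mul (by positivity) (by positivity), Real.log_pow]
  push_cast
  ring

lemma log_lin {w : ℝ} (hw : 0 < w) : Real.log w ≤ w / 32 + 2466 / 1000 := by
  have l2b := Real.log_two_lt_d9
  have h2 := Real.log_le_sub_one_of_pos (show 0 < w / 32 by positivity)
  rw [Real.log_div hw.ne' (by norm_num), show (32 : ℝ) = 2 ^ 5 by norm_num, Real.log_pow] at h2
  push_cast at h2
  linarith

lemma numeric {q m r : ℝ} (hr : 0 < r) (hrq : r ≤ q) (hq1 : 1 ≤ q) (hm : 0 < m)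
    (h : (m - 1) * (2 * Real.log 2 + 2 * Real.log 3 - 2) ≤
      m * (10 / 9 + Real.log 2 / 50) + Real.log (4 * m) + q * Real.log (4 * (r * m))) :
    m ≤ 40 * q * Real.log (2 * q) := by
  have l2a := Real.log_two_gt_d9
  have l2b := Real.log_two_lt_d9
  have l3a : (19 : ℝ) * Real.log 2 ≤ 12 * Real.log 3 := by
    have h2 := Real.log_le_log (by norm_num) (show (2 : ℝ) ^ 19 ≤ 3 ^ 12 by norm_num)
    rw [Real.log_pow, Real.log_pow] at h2
    push_cast at h2
    exact h2
  have l3b : (5 : ℝ) * Real.log 3 ≤ 8 * Real.log 2 := by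
    have h2 := Real.log_le_log (by norm_num) (show (3 : ℝ) ^ 5 ≤ 2 ^ 8 by norm_num)
    rw [Real.log_pow, Real.log_pow] at h2
    push_cast at h2
    exact h2
  have hq0 : 0 < q := by linarith
  by_contra hcon
  push Not at hcon
  have hlq : 693 / 1000 ≤ Real.log (2 * q) := by
    have h2 := Real.log_le_log (by norm_num) (show (2 : ℝ) ≤ 2 * q by linarith)
    linarith
  have hqq : 693 / 1000 * q ≤ q * Real.log (2 * q) := by
    rw [mul_comm]
    exact mul_le_mul_of_nonneg_left hlq hq0.le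
  have hmq : 2772 / 100 * q ≤ m := by linarith
  have hm1 : (2772 / 100 : ℝ) ≤ m := by linarith
  have f1 : q * Real.log (4 * (r * m)) ≤ 17025 / 100000 * m := by
    have h2 : Real.log (4 * (r * m)) ≤ Real.log (4 * (q * m)) :=
      Real.log_le_log (by positivity) (by gcongr)
    have h4 := log_lin (w := m / q) (by positivity)
    have h5 : q * (m / q / 32 + 2466 / 1000) = m / 32 + 2466 / 1000 * q := by field_simp
    calc q * Real.log (4 * (r * m)) ≤ q * Real.log (4 * (q * m)) := by gcongr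
      _ = 2 * (q * Real.log (2 * q)) + q * Real.log (m / q) := by rw [log_four hq0 hm]; ring
      _ ≤ 2 * (q * Real.log (2 * q)) + q * (m / q / 32 + 2466 / 1000) := by gcongr
      _ = 2 * (q * Real.log (2 * q)) + m / 32 + 2466 / 1000 * q := by rw [h5]; ring
      _ ≤ _ := by linarith
  have f2 : Real.log (4 * m) ≤ 17025 / 100000 * m := by
    have h2 := log_lin hm
    have h3 : Real.log (4 * m) = 2 * Real.log 2 + Real.log m := by
      rw [Real.log_mul (by norm_num) hm.ne', show (4 : ℝ) = 2 ^ 2 by norm_num, Real.log_pow]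
      push_cast
      ring
    rw [h3]
    linarith
  have f3 : m * (10 / 9 + Real.log 2 / 50) ≤ m * (112498 / 100000) := by
    apply mul_le_mul_of_nonneg_left _ hm.le
    linarith
  have f4 : (m - 1) * (158125 / 100000) ≤ (m - 1) * (2 * Real.log 2 + 2 * Real.log 3 - 2) := by
    apply mul_le_mul_of_nonneg_left _ (by linarith)
    linarith
  linarith

/-- the inequality for the product over all places implies a bound for `m` -/
theorem final_bound {m M r N : ℕ} (hm : 0 < m) (hmM : m ≤ M) (hMr : M ≤ r * m) (hr : 0 < r)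
    (hN : 0 < N) {ρ : ℝ} (hρ1 : 1 ≤ ρ) (hρ : ρ ^ (100 * r ^ 2 * N) ≤ 2) {ℓ : ℝ}
    (hℓ : ℓ = 4 / (9 * (r : ℝ) ^ 2))
    (h : 1 ≤ (1 + ℓ / 4) ^ (M * (M - 1)) * ((ℓ / 4) ^ (m * (m - 1)) * (4 * m) ^ m *
        (∏ k ∈ range m, AA M k) ^ 2) * ((4 * M * (ρ ^ M) ^ 2) ^ M) ^ N) :
    (m : ℝ) ≤ 40 * (r * N) * Real.log (2 * (r * N)) := by
  have hM : 0 < M := by omega
  have hm0 : (0 : ℝ) < m := by exact_mod_cast hm
  have hM0 : (0 : ℝ) < M := by exact_mod_cast hM
  have hr0 : (0 : ℝ) < r := by exact_mod_cast hr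
  have hr1 : (1 : ℝ) ≤ r := by exact_mod_cast hr
  have hN0 : (0 : ℝ) < N := by exact_mod_cast hN
  have hN1 : (1 : ℝ) ≤ N := by exact_mod_cast hN
  have hρ0 : 0 < ρ := by linarith
  have hℓ0 : 0 < ℓ := by rw [hℓ]; positivity
  have hMr' : (M : ℝ) ≤ r * m := by exact_mod_cast hMr
  have hAA : 0 < ∏ k ∈ range m, AA M k := prod_pos fun k _ => AA_pos hM k
  have h1 := Real.log_le_log one_pos h
  rw [Real.log_one, Real.log_mul (by positivity) (by positivity),
    Real.log_mul (by positivity) (by positivity), Real.log_mul (by positivity) (by positivity),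
    Real.log_mul (by positivity) (by positivity), Real.log_pow, Real.log_pow, Real.log_pow,
    Real.log_pow, Real.log_pow, Real.log_pow,
    Real.log_mul (x := 4 * (M : ℝ)) (y := (ρ ^ M) ^ 2) (by positivity) (by positivity),
    Real.log_pow, Real.log_pow, Real.log_prod (fun k _ => (AA_pos hM k).ne')] at h1
  push_cast [Nat.cast_sub (show 1 ≤ m from hm), Nat.cast_sub (show 1 ≤ M from hM)] at h1
  -- the separate terms
  have e1 : (M : ℝ) * (M - 1) * Real.log (1 + ℓ / 4) ≤ (m : ℝ) ^ 2 / 9 := by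
    have h2 : Real.log (1 + ℓ / 4) ≤ ℓ / 4 := by
      have := Real.log_le_sub_one_of_pos (show 0 < 1 + ℓ / 4 by positivity)
      linarith
    have h3 : 0 ≤ (M : ℝ) * (M - 1) := by
      have : (1 : ℝ) ≤ M := by exact_mod_cast hM
      nlinarith
    calc (M : ℝ) * (M - 1) * Real.log (1 + ℓ / 4) ≤ (M : ℝ) * (M - 1) * (ℓ / 4) := by gcongr
      _ ≤ (M : ℝ) ^ 2 * (ℓ / 4) := by
          apply mul_le_mul_of_nonneg_right _ (by positivity)
          nlinarith
      _ ≤ (r * m : ℝ) ^ 2 * (ℓ / 4) := by gcongr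
      _ = (m : ℝ) ^ 2 / 9 := by rw [hℓ]; field_simp
  have e2 : Real.log (ℓ / 4) = -2 * Real.log 3 - 2 * Real.log r := by
    have h2 : ℓ / 4 = ((3 * (r : ℝ)) ^ 2)⁻¹ := by rw [hℓ]; field_simp; ring
    rw [h2, Real.log_inv, Real.log_pow, Real.log_mul (by norm_num) hr0.ne']
    push_cast
    ring
  have e3 := sum_log_AA hm hr hM hMr
  have e4 : (100 : ℝ) * r ^ 2 * N * Real.log ρ ≤ Real.log 2 := by
    have h2 := Real.log_le_log (by positivity) hρ
    rw [Real.log_pow] at h2
    push_cast at h2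
    exact h2
  have hlρ : 0 ≤ Real.log ρ := Real.log_nonneg hρ1
  have e5 : (N : ℝ) * (M * (2 * (M * Real.log ρ))) ≤ (m : ℝ) ^ 2 * (Real.log 2 / 50) := by
    calc (N : ℝ) * (M * (2 * (M * Real.log ρ))) = (M : ℝ) ^ 2 * (2 * N * Real.log ρ) := by ring
      _ ≤ (r * m : ℝ) ^ 2 * (2 * N * Real.log ρ) := by gcongr
      _ = (m : ℝ) ^ 2 * ((100 * r ^ 2 * N * Real.log ρ) / 50) := by ring
      _ ≤ _ := by gcongr
  have e6 : (N : ℝ) * (M * Real.log (4 * M)) ≤ N * ((r * m) * Real.log (4 * (r * m))) := by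
    have h2 : Real.log (4 * M) ≤ Real.log (4 * (r * m)) := Real.log_le_log (by positivity) (by gcongr)
    have h3 : 0 ≤ Real.log (4 * M) := Real.log_nonneg (by
      have : (1 : ℝ) ≤ M := by exact_mod_cast hM
      linarith)
    gcongr
  have e7 : (0 : ℝ) ≤ m * (m * (10 / 9 + Real.log 2 / 50) + Real.log (4 * m) +
      N * (r * Real.log (4 * (r * m))) - (m - 1) * (2 * Real.log 2 + 2 * Real.log 3 - 2)) := by
    rw [e2] at h1
    have h2 : (N : ℝ) * ((M : ℝ) * (Real.log (4 * M) + 2 * (M * Real.log ρ))) =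
      N * (M * Real.log (4 * M)) + N * (M * (2 * (M * Real.log ρ))) := by ring
    rw [h2] at h1
    nlinarith
  have e8 : (m - 1) * (2 * Real.log 2 + 2 * Real.log 3 - 2) ≤
      m * (10 / 9 + Real.log 2 / 50) + Real.log (4 * m) + N * (r * Real.log (4 * (r * m))) := by
    have := nonneg_of_mul_nonneg_right e7 hm0
    linarith
  have hq1 : (1 : ℝ) ≤ r * N := by nlinarith
  refine numeric hr0 (by nlinarith) hq1 hm0 (e8.trans (le_of_eq ?_))
  ring

end Pool.Agent.K8h8.FE
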