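import Mathlib
import Pool.Agent.Y642.TC.C
import Pool.Agent.N772.SC.Main
import Pool.Agent.H892.Parry.Common
import Pool.Agent.K8h8.FE.Det

/-!
# Perron numbers with a Parry power
-/

set_option autoImplicit false

open Finset Polynomial IntermediateField

namespace Pool.Agent.K8h8.FE

open Pool.Agent.H892.Parry

/-- the degree of `β` over the field of `β + β⁻¹` is at most two -/
lemma deg_le {β : ℝ} (hβ0 : β ≠ 0) (hβ : IsIntegral ℤ β) :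
    deg β ≤ 2 * Module.finrank ℚ ℚ⟮β + β⁻¹⟯ := by
  set t : ℝ := β + β⁻¹ with ht
  have hβQ : IsIntegral ℚ β := hβ.tower_top
  have htQ : IsIntegral ℚ t := hβQ.add hβQ.inv
  have hfin : FiniteDimensional ℚ ℚ⟮t⟯ := adjoin.finiteDimensional htQ
  have hβF : IsIntegral ℚ⟮t⟯ β := hβQ.tower_top
  have hfin2 : FiniteDimensional ℚ⟮t⟯ ℚ⟮t⟯⟮β⟯ := adjoin.finiteDimensional hβF
  have hfin3 : FiniteDimensional ℚ ℚ⟮t⟯⟮β⟯ := FiniteDimensional.trans ℚ ℚ⟮t⟯ ℚ⟮t⟯⟮β⟯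
  have h1 : (minpoly ℚ⟮t⟯ β).natDegree ≤ 2 := by
    set g : ℚ⟮t⟯[X] := X ^ 2 - C (AdjoinSimple.gen ℚ t) * X + C 1 with hg
    have hg1 : g.natDegree ≤ 2 := by
      rw [hg]
      compute_degree
    have hg2 : g.coeff 2 = 1 := by
      rw [hg]
      simp [coeff_one]
    have hg0 : g ≠ 0 := by
      intro h
      rw [h, coeff_zero] at hg2
      exact zero_ne_one hg2
    have hroot : aeval β g = 0 := by
      rw [hg]
      simp only [map_add, map_sub, map_mul, map_pow, aeval_X, aeval_C, map_one,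
        AdjoinSimple.algebraMap_gen]
      rw [ht]
      field_simp
      ring
    exact (natDegree_le_of_dvd (minpoly.dvd _ _ hroot) hg0).trans hg1
  have h2 : Module.finrank ℚ ℚ⟮t⟯ * Module.finrank ℚ⟮t⟯ ℚ⟮t⟯⟮β⟯ = Module.finrank ℚ ℚ⟮t⟯⟮β⟯ :=
    Module.finrank_mul_finrank ℚ ℚ⟮t⟯ ℚ⟮t⟯⟮β⟯
  rw [adjoin.finrank hβF] at h2
  have h3 : (minpoly ℚ (AdjoinSimple.gen ℚ⟮t⟯ β)).natDegree ≤ Module.finrank ℚ ℚ⟮t⟯⟮β⟯ :=
    minpoly.natDegree_le _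
  have h4 : minpoly ℚ (AdjoinSimple.gen ℚ⟮t⟯ β) = minpoly ℚ β := by
    have := minpoly.algebraMap_eq (A := ℚ) (algebraMap ℚ⟮t⟯⟮β⟯ ℝ).injective (AdjoinSimple.gen ℚ⟮t⟯ β)
    rw [AdjoinSimple.algebraMap_gen] at this
    exact this.symm
  have h5 : (minpoly ℚ β).natDegree = deg β := by
    unfold deg
    rw [minpoly.isIntegrallyClosed_eq_field_fractions' ℚ hβ,
      (minpoly.monic hβ).natDegree_map]
  rw [h4, h5] at h3
  have h6 : Module.finrank ℚ ℚ⟮t⟯ * (minpoly ℚ⟮t⟯ β).natDegree ≤ Module.finrank ℚ ℚ⟮t⟯ * 2 :=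
    Nat.mul_le_mul_left _ h1
  omega

lemma recip {β : ℝ} (h : IsPerron β) (hβ : β ≤ 1.17629) {n : ℕ} (hn : 9 * deg β ≤ n)
    (hp : IsParry (β ^ n)) : aeval β⁻¹ (minpoly ℤ β) = 0 := by
  by_contra hcon
  have hβ0 : 0 < β := by linarith [h.1]
  have hd := deg_pos h.2.1
  have hM := one_le_M h.2.1
  set f := minpoly ℤ β with hf
  have hrev : aeval β⁻¹ f.reverse = 0 := by
    have : Invertible β := invertibleOfNonzero hβ0.ne'
    have h1 := (eval₂_reverse_eq_zero_iff (algebraMap ℤ ℝ) β f).2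
      (by rw [← aeval_def]; exact minpoly.aeval ℤ β)
    rw [invOf_eq_inv] at h1
    exact h1
  have h1 : f.reverse ≠ f := by
    intro h2
    rw [h2] at hrev
    exact hcon hrev
  have h2 : f.reverse ≠ -f := by
    intro h2
    rw [h2, map_neg, neg_eq_zero] at hrev
    exact hcon hrev
  have h3 : f.coeff 0 ≠ 0 := by
    intro h4
    apply (noCyc h.1 h.2.1 0 _).1 rfl
    rw [← hf, ← coeff_zero_eq_aeval_zero' f, h4, map_zero]
  have h4 := Pool.Agent.N772.SC.smyth f h3 h1 h2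
  have h5 : (128 / 100 : ℝ) ≤ M β ^ 1 := by
    rw [pow_one]
    exact h4
  exact key (r := 1.088) (B := 1.17629) (A := 128 / 100) (s := 1) (t := 9) hβ0 hβ
    (by norm_num) (by norm_num) h5 (by norm_num) (by linarith) (by norm_num) hd (by omega)
    (general h (by omega) hp)

lemma conj_pow_le {β : ℝ} (h : IsPerron β) {n : ℕ} (hn : 1 ≤ n) (hp : IsParry (β ^ n)) {z : ℂ}
    (hz : aeval z (minpoly ℤ β) = 0) (hne : z ≠ (β : ℂ)) : ‖z‖ ^ n ≤ 2 := by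
  apply conj_le_two h.2.1 hz hp
  intro h1
  have h2 : ‖z‖ ^ n = β ^ n := by
    rw [← norm_pow, h1, norm_pow, Complex.norm_real, Real.norm_eq_abs,
      abs_of_pos (by linarith [h.1])]
  have h3 : ‖z‖ ^ n < β ^ n := pow_lt_pow_left₀ (h.2.2 z hz hne) (norm_nonneg _) (by omega)
  linarith

lemma conj_le_rho {β : ℝ} (h : IsPerron β) {n n₀ : ℕ} (hn0 : 1 ≤ n₀) (hn : n₀ ≤ n)
    (hp : IsParry (β ^ n)) {ρ : ℝ} (hρ1 : 1 ≤ ρ) (hρ : 2 ≤ ρ ^ n₀) {z : ℂ}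
    (hz : aeval z (minpoly ℤ β) = 0) (hne : z ≠ (β : ℂ)) : ‖z‖ ≤ ρ := by
  rcases le_total ‖z‖ 1 with h1 | h1
  · linarith
  · have h2 := conj_pow_le h (by omega) hp hz hne
    have h3 : ‖z‖ ^ n₀ ≤ ‖z‖ ^ n := pow_le_pow_right₀ h1 hn
    have h4 : ‖z‖ ^ n₀ ≤ ρ ^ n₀ := by linarith
    exact (pow_le_pow_iff_left₀ (norm_nonneg _) (by linarith) (by omega)).1 h4

lemma region {β : ℝ} (h : IsPerron β) (hrec : aeval β⁻¹ (minpoly ℤ β) = 0) {n n₀ : ℕ}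
    (hn0 : 1 ≤ n₀) (hn : n₀ ≤ n) (hp : IsParry (β ^ n)) {ρ : ℝ} (hρ1 : 1 ≤ ρ) (hρ : 2 ≤ ρ ^ n₀)
    {y : ℂ} (hy : aeval y (minpoly ℤ (β + β⁻¹)) = 0) (hne : y ≠ ((β + β⁻¹ : ℝ) : ℂ)) :
    Reg ρ y := by
  obtain ⟨ζ, h0, h1, h2, h3⟩ :=
    Pool.Agent.Y642.TC.conj_trace (by linarith [h.1] : β ≠ 0) h.2.1 hrec hy
  have h4 : ζ ≠ (β : ℂ) := by
    rintro rfl
    apply hne
    rw [← h3]
    push_cast
    rfl
  have h5 : ζ⁻¹ ≠ (β : ℂ) := by
    intro h6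
    apply hne
    rw [← h3]
    push_cast
    rw [← h6, inv_inv, add_comm]
  rw [← h3]
  exact reg_of_z hρ1 h0 (conj_le_rho h hn0 hn hp hρ1 hρ h1 h4) (conj_le_rho h hn0 hn hp hρ1 hρ h2 h5)

lemma int_trace {β : ℝ} (h : IsPerron β) (hrec : aeval β⁻¹ (minpoly ℤ β) = 0) :
    IsIntegral ℤ (β + β⁻¹) :=
  h.2.1.add ⟨minpoly ℤ β, minpoly.monic h.2.1, by rw [← aeval_def]; exact hrec⟩

lemma trace_le {β : ℝ} (h1 : 1 < β) (hβ : β ≤ 1.17629) {r : ℕ} (hr : 1 ≤ r)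
    (h : r ≤ 4 ∨ 3 * r * (β - 1) ≤ 2 * Real.sqrt β) :
    2 ≤ β + β⁻¹ ∧ β + β⁻¹ ≤ 2 + 4 / (9 * (r : ℝ) ^ 2) := by
  have h0 : 0 < β := by linarith
  have hr0 : (0 : ℝ) < r := by exact_mod_cast hr
  have e : β + β⁻¹ = 2 + (β - 1) ^ 2 / β := by field_simp; ring
  have h2 : 9 * (r : ℝ) ^ 2 * (β - 1) ^ 2 ≤ 4 * β := by
    rcases h with h | h
    · have h3 : (r : ℝ) ≤ 4 := by exact_mod_cast h
      have h4 : (r : ℝ) ^ 2 ≤ 16 := by nlinarith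
      have h6 : (β - 1) ^ 2 ≤ (β - 1) * 0.17629 := by nlinarith
      have h8 : 9 * (r : ℝ) ^ 2 * (β - 1) ^ 2 ≤ 9 * 16 * (β - 1) ^ 2 := by gcongr
      linarith
    · have h3 : 0 ≤ 3 * r * (β - 1) := by
        have : 0 < β - 1 := by linarith
        positivity
      have h4 := pow_le_pow_left₀ h3 h 2
      rw [mul_pow 2 (Real.sqrt β), Real.sq_sqrt h0.le] at h4
      nlinarith
  rw [e]
  constructor
  · have : 0 ≤ (β - 1) ^ 2 / β := by positivity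
    linarith
  · have : (β - 1) ^ 2 / β ≤ 4 / (9 * (r : ℝ) ^ 2) := by
      rw [div_le_div_iff₀ h0 (by positivity)]
      linarith
    linarith

lemma trace_inj {a b : ℝ} (ha : 1 < a) (hb : 1 < b) (h : a + a⁻¹ = b + b⁻¹) : a = b := by
  have ha0 : 0 < a := by linarith
  have hb0 : 0 < b := by linarith
  have h1 : (a - b) * (a * b - 1) = 0 := by
    have h2 : (a + a⁻¹) * (a * b) = (b + b⁻¹) * (a * b) := by rw [h]
    have h3 : (a + a⁻¹) * (a * b) = a ^ 2 * b + b := by field_simp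
    have h4 : (b + b⁻¹) * (a * b) = a * b ^ 2 + a := by field_simp
    rw [h3, h4] at h2
    linear_combination h2
  rcases mul_eq_zero.1 h1 with h2 | h2
  · linarith
  · nlinarith

end Pool.Agent.K8h8.FE
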