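import Mathlib
import Pool.Agent.K8h8.FE.Det

/-!
# The product over all places
-/

set_option autoImplicit false

open Finset Polynomial

namespace Pool.Agent.K8h8.FE

variable {L : Type*} [Field L] [NumberField L] [IsGalois ℚ L]

lemma norm_ge (ι : L →+* ℂ) {Δ : L} (hΔ : IsIntegral ℤ Δ) (h0 : Δ ≠ 0) :
    1 ≤ ∏ g : (L ≃ₐ[ℚ] L), ‖ι (g Δ)‖ := by
  have h1 : IsIntegral ℤ (Algebra.norm ℚ Δ) := Algebra.isIntegral_norm ℚ hΔ
  obtain ⟨n, hn⟩ := IsIntegrallyClosed.isIntegral_iff.1 h1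
  have h2 : Algebra.norm ℚ Δ ≠ 0 := Algebra.norm_ne_zero_iff.2 h0
  have h3 : n ≠ 0 := by
    rintro rfl
    rw [map_zero] at hn
    exact h2 hn.symm
  have h4 := congrArg ι (Algebra.norm_eq_prod_automorphisms ℚ Δ)
  rw [map_prod] at h4
  rw [← norm_prod, ← h4, ← hn]
  have h5 : ι ((algebraMap ℚ L) ((algebraMap ℤ ℚ) n)) = (n : ℂ) := by
    simp
  rw [h5, Complex.norm_intCast]
  exact_mod_cast Int.one_le_abs h3

lemma norm_det_perm {n : ℕ} (y : Fin n → ℂ) (π : Equiv.Perm (Fin n)) :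
    ‖(Matrix.vandermonde fun i => y (π i)).det‖ = ‖(Matrix.vandermonde y).det‖ := by
  have h1 : Matrix.vandermonde (fun i => y (π i)) = (Matrix.vandermonde y).submatrix π id := by
    ext i j
    simp [Matrix.vandermonde_apply]
  rw [h1, Matrix.det_permute, norm_mul]
  rcases Int.units_eq_one_or (Equiv.Perm.sign π) with h | h <;> simp [h]

open Classical in
/-- the stabiliser of `θ` -/
noncomputable def Hs {L : Type*} [Field L] [NumberField L] (θ : L) : Finset (L ≃ₐ[ℚ] L) :=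
  univ.filter fun g => g θ = θ

open Classical in
theorem places (ι : L →+* ℂ) {ρ ℓ : ℝ} (hρ : 1 ≤ ρ) (hℓ0 : 0 < ℓ) (T : Finset L)
    (hint : ∀ t ∈ T, IsIntegral ℤ t)
    (hreal : ∀ t ∈ T, ∃ x : ℝ, 2 ≤ x ∧ x ≤ 2 + ℓ ∧ ι t = x)
    (hconj : ∀ t ∈ T, ∀ g : (L ≃ₐ[ℚ] L), g t ≠ t → Reg ρ (ι (g t)))
    (θ : L) (hθ : ∀ t ∈ T, ∀ g : (L ≃ₐ[ℚ] L), g t = t → g θ = θ)
    (N r : ℕ) (hN : Fintype.card (L ≃ₐ[ℚ] L) = N * (Hs θ).card)
    (hr : ∀ t ∈ T, ((Hs θ).image fun h => h t).card ≤ r) :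
    ∃ M : ℕ, T.card ≤ M ∧ M ≤ r * T.card ∧
      1 ≤ (1 + ℓ / 4) ^ (M * (M - 1)) * ((ℓ / 4) ^ (T.card * (T.card - 1)) * (4 * T.card) ^ T.card *
        (∏ k ∈ range T.card, AA M k) ^ 2) * ((4 * M * (ρ ^ M) ^ 2) ^ M) ^ N := by
  set H := Hs θ with hH
  have hmemH : ∀ g : (L ≃ₐ[ℚ] L), g ∈ H ↔ g θ = θ := by
    intro g
    rw [hH, Hs, mem_filter]
    simp
  have h1H : (1 : L ≃ₐ[ℚ] L) ∈ H := by
    rw [hmemH]
    rfl
  set X : Finset L := T.biUnion fun t => H.image fun h => h t with hX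
  have hTX : T ⊆ X := by
    intro t ht
    rw [hX, mem_biUnion]
    exact ⟨t, ht, mem_image.2 ⟨1, h1H, rfl⟩⟩
  have hXmem : ∀ x ∈ X, ∃ t ∈ T, ∃ h ∈ H, h t = x := by
    intro x hx
    rw [hX, mem_biUnion] at hx
    obtain ⟨t, ht, hx⟩ := hx
    obtain ⟨h, hh, rfl⟩ := mem_image.1 hx
    exact ⟨t, ht, h, hh, rfl⟩
  have hXstab : ∀ g ∈ H, ∀ x ∈ X, g x ∈ X := by
    intro g hg x hx
    obtain ⟨t, ht, h, hh, rfl⟩ := hXmem x hx
    rw [hX, mem_biUnion]
    refine ⟨t, ht, mem_image.2 ⟨g * h, ?_, rfl⟩⟩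
    rw [hmemH, AlgEquiv.mul_apply, (hmemH h).1 hh, (hmemH g).1 hg]
  have hXcard : X.card ≤ r * T.card := by
    rw [hX]
    refine card_biUnion_le.trans ?_
    refine (sum_le_sum hr).trans ?_
    rw [sum_const, smul_eq_mul, mul_comm]
  -- enumeration
  set lst : List L := T.toList ++ (X \ T).toList with hlst
  have hlen : lst.length = X.card := by
    rw [hlst, List.length_append, length_toList, length_toList, card_sdiff_of_subset hTX]
    have := card_le_card hTX
    omega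
  have hnd : lst.Nodup := by
    rw [hlst, List.nodup_append']
    refine ⟨nodup_toList _, nodup_toList _, ?_⟩
    intro x hx1 hx2
    rw [mem_toList] at hx1 hx2
    exact (mem_sdiff.1 hx2).2 hx1
  set v : ℕ → L := fun n => lst.getD n 0 with hv
  have hvget : ∀ n (hn : n < X.card), v n = lst[n]'(by rw [hlen]; exact hn) := by
    intro n hn
    rw [hv]
    exact List.getD_eq_getElem _ _ _
  have hvX : ∀ n < X.card, v n ∈ X := by
    intro n hn
    rw [hvget n hn]
    have h2 : ∀ y ∈ lst, y ∈ X := by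
      intro y hy
      rw [hlst, List.mem_append, mem_toList, mem_toList] at hy
      rcases hy with hy | hy
      · exact hTX hy
      · exact (mem_sdiff.1 hy).1
    exact h2 _ (List.getElem_mem _)
  have hvT : ∀ n < T.card, v n ∈ T := by
    intro n hn
    have hn2 : n < X.card := lt_of_lt_of_le hn (card_le_card hTX)
    rw [hvget n hn2]
    simp only [hlst]
    rw [List.getElem_append_left (by rw [length_toList]; exact hn)]
    exact mem_toList.1 (List.getElem_mem _)
  have hvY : ∀ n, T.card ≤ n → n < X.card → v n ∈ X \ T := by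
    intro n hn1 hn2
    rw [hvget n hn2]
    simp only [hlst]
    rw [List.getElem_append_right (by rw [length_toList]; exact hn1)]
    exact mem_toList.1 (List.getElem_mem _)
  set x : Fin X.card → L := fun i => v i with hx
  have hxinj : Function.Injective x := by
    intro i j hij
    have h2 : v i = v j := hij
    rw [hvget i i.2, hvget j j.2] at h2
    exact Fin.ext ((hnd.getElem_inj_iff).1 h2)
  have hxsurj : ∀ y ∈ X, ∃ i, x i = y := by
    have h2 : univ.image x = X := by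
      apply eq_of_subset_of_card_le
      · intro y hy
        obtain ⟨i, _, rfl⟩ := mem_image.1 hy
        exact hvX i i.2
      · rw [card_image_of_injective _ hxinj, card_univ, Fintype.card_fin]
    intro y hy
    rw [← h2] at hy
    obtain ⟨i, _, hi⟩ := mem_image.1 hy
    exact ⟨i, hi⟩
  have hxint : ∀ i, IsIntegral ℤ (x i) := by
    intro i
    obtain ⟨t, ht, h, hh, h2⟩ := hXmem (x i) (hvX i i.2)
    rw [← h2]
    exact map_isIntegral_int (h : L →+* L) (hint t ht)
  set Δ : L := (Matrix.vandermonde x).det with hΔ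
  have hΔ0 : Δ ≠ 0 := Matrix.det_vandermonde_ne_zero_iff.2 hxinj
  have hΔint : IsIntegral ℤ Δ := by
    rw [hΔ]
    apply IsIntegral.det
    intro i j
    rw [Matrix.vandermonde_apply]
    exact (hxint i).pow _
  have hΔg : ∀ g : (L ≃ₐ[ℚ] L), ι (g Δ) = (Matrix.vandermonde fun i => ι (g (x i))).det := by
    intro g
    have h2 := RingHom.map_det (ι.comp (g : L →+* L)) (Matrix.vandermonde x)
    have h3 : (ι.comp (g : L →+* L)).mapMatrix (Matrix.vandermonde x) =
        Matrix.vandermonde fun i => ι (g (x i)) := by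
      ext i j
      simp [Matrix.vandermonde_apply]
    rw [h3] at h2
    exact h2
  set Do : ℝ := (4 * X.card * (ρ ^ X.card) ^ 2) ^ X.card with hDo
  set Dg : ℝ := (1 + ℓ / 4) ^ (X.card * (X.card - 1)) * ((ℓ / 4) ^ (T.card * (T.card - 1)) *
    (4 * T.card) ^ T.card * ((∏ k ∈ range T.card, AA X.card k) ^ 2 *
      (4 * X.card * (ρ ^ X.card) ^ 2) ^ X.card)) with hDg
  have hout : ∀ g : (L ≃ₐ[ℚ] L), g ∉ H → ‖ι (g Δ)‖ ^ 2 ≤ Do := by
    intro g hg
    rw [hΔg]
    apply det_reg hρ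
    intro i
    obtain ⟨t, ht, h, hh, h2⟩ := hXmem (x i) (hvX i i.2)
    rw [← h2]
    have h3 := hconj t ht (g * h) (by
      intro h4
      apply hg
      rw [hmemH]
      have h5 := hθ t ht _ h4
      rwa [AlgEquiv.mul_apply, (hmemH h).1 hh] at h5)
    rwa [AlgEquiv.mul_apply] at h3
  have hgood1 : ‖(Matrix.vandermonde fun i => ι (x i)).det‖ ^ 2 ≤ Dg := by
    apply det_good hρ hℓ0 (card_le_card hTX) (fun n => ι (v n))
    · intro i hi
      exact hreal _ (hvT i hi)
    · intro i hi1 hi2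
      have h2 := mem_sdiff.1 (hvY i hi1 hi2)
      obtain ⟨t, ht, h, hh, h3⟩ := hXmem _ h2.1
      change Reg ρ (ι (v i))
      rw [← h3]
      apply hconj t ht h
      intro h4
      apply h2.2
      rw [← h3, h4]
      exact ht
  have hin : ∀ g : (L ≃ₐ[ℚ] L), g ∈ H → ‖ι (g Δ)‖ ^ 2 ≤ Dg := by
    intro g hg
    have h2 : ∀ i, ∃ j, x j = g (x i) := fun i => hxsurj _ (hXstab g hg _ (hvX i i.2))
    choose p hp using h2
    have hpinj : Function.Injective p := by
      intro i j hij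
      apply hxinj
      apply g.injective
      rw [← hp i, ← hp j, hij]
    set π : Equiv.Perm (Fin X.card) := Equiv.ofBijective p (Finite.injective_iff_bijective.1 hpinj)
      with hπ
    rw [hΔg]
    have h3 : (fun i => ι (g (x i))) = fun i => (fun k => ι (x k)) (π i) := by
      ext i
      rw [← hp i]
      rfl
    rw [h3, norm_det_perm (fun k => ι (x k)) π]
    exact hgood1
  have hprod : 1 ≤ ∏ g : (L ≃ₐ[ℚ] L), ‖ι (g Δ)‖ ^ 2 := by
    rw [prod_pow]
    exact one_le_pow₀ (norm_ge ι hΔint hΔ0)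
  have hHpos : 0 < H.card := card_pos.2 ⟨1, h1H⟩
  have hDo0 : 0 ≤ Do := by positivity
  have hDg0 : 0 ≤ Dg := le_trans (by positivity) hgood1
  have hN1 : 1 ≤ N := by
    rcases Nat.eq_zero_or_pos N with h | h
    · rw [h, zero_mul] at hN
      have : 0 < Fintype.card (L ≃ₐ[ℚ] L) := Fintype.card_pos
      omega
    · exact h
  have hle : ∏ g : (L ≃ₐ[ℚ] L), ‖ι (g Δ)‖ ^ 2 ≤ (Dg * Do ^ (N - 1)) ^ H.card := by
    have h2 : ∀ g : (L ≃ₐ[ℚ] L), ‖ι (g Δ)‖ ^ 2 ≤ if g ∈ H then Dg else Do := by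
      intro g
      split_ifs with h
      · exact hin g h
      · exact hout g h
    refine (prod_le_prod (fun g _ => by positivity) fun g _ => h2 g).trans (le_of_eq ?_)
    rw [prod_ite, prod_const, prod_const, mul_pow Dg, ← pow_mul Do]
    have h3 : (univ.filter fun g => g ∈ H).card = H.card := by
      congr 1
      ext g
      simp
    have h4 : (univ.filter fun g => g ∉ H).card = (N - 1) * H.card := by
      have h5 := card_filter_add_card_filter_not (s := (univ : Finset (L ≃ₐ[ℚ] L))) (fun g => g ∈ H)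
      rw [h3, card_univ, hN] at h5
      rw [Nat.sub_mul, one_mul]
      omega
    rw [h3, h4]
  refine ⟨X.card, card_le_card hTX, hXcard, ?_⟩
  have hfin : 1 ≤ Dg * Do ^ (N - 1) := by
    by_contra hcon
    push Not at hcon
    have h2 : (Dg * Do ^ (N - 1)) ^ H.card < 1 := pow_lt_one₀ (by positivity) hcon hHpos.ne'
    linarith
  refine hfin.trans (le_of_eq ?_)
  obtain ⟨N', rfl⟩ : ∃ N', N = N' + 1 := ⟨N - 1, by omega⟩
  rw [Nat.add_sub_cancel, pow_succ, hDg, hDo]
  ring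

end Pool.Agent.K8h8.FE
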