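import Mathlib
import Pool.Agent.K8h8.FE.Norm

/-!
# Orbits of the Galois group
-/

set_option autoImplicit false

open Finset Polynomial IntermediateField

namespace Pool.Agent.K8h8.FE

variable {L : Type*} [Field L] [NumberField L]

lemma mem_Hs (x : L) (g : L ≃ₐ[ℚ] L) : g ∈ Hs x ↔ g x = x := by
  classical
  unfold Hs
  rw [mem_filter]
  simp

variable [IsGalois ℚ L]

lemma card_Hs (x : L) :
    Fintype.card (L ≃ₐ[ℚ] L) = (minpoly ℚ x).natDegree * (Hs x).card := by
  classical
  have h1 : Nat.card (fixingSubgroup ℚ⟮x⟯) = Module.finrank ℚ⟮x⟯ L :=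
    IsGalois.card_fixingSubgroup_eq_finrank ℚ⟮x⟯
  have h2 : Nat.card (fixingSubgroup ℚ⟮x⟯) = (Hs x).card := by
    rw [Nat.card_eq_fintype_card, ← Fintype.card_coe]
    apply Fintype.card_congr
    refine Equiv.subtypeEquivRight fun g => ?_
    rw [mem_Hs]
    constructor
    · intro h
      exact (IntermediateField.mem_fixingSubgroup_iff ℚ⟮x⟯ g).1 h x (mem_adjoin_simple_self ℚ x)
    · intro h
      rw [IntermediateField.mem_fixingSubgroup_iff]
      intro y hy
      obtain ⟨r, s, rfl⟩ := (mem_adjoin_simple_iff ℚ y).1 hy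
      have h3 : ∀ p : ℚ[X], g (aeval x p) = aeval x p := by
        intro p
        calc g (aeval x p) = aeval (g x) p := (aeval_algHom_apply g.toAlgHom x p).symm
          _ = _ := by rw [h]
      rw [map_div₀, h3, h3]
  have h3 : Module.finrank ℚ ℚ⟮x⟯ * Module.finrank ℚ⟮x⟯ L = Module.finrank ℚ L :=
    Module.finrank_mul_finrank ℚ ℚ⟮x⟯ L
  have h4 : Module.finrank ℚ ℚ⟮x⟯ = (minpoly ℚ x).natDegree :=
    adjoin.finrank (Algebra.IsIntegral.isIntegral x)
  have h5 : Nat.card (L ≃ₐ[ℚ] L) = Module.finrank ℚ L := IsGalois.card_aut_eq_finrank ℚ L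
  rw [← Nat.card_eq_fintype_card, h5, ← h3, h4, ← h1, h2]

open Classical in
lemma card_orbit_le (θ t : L) (hθ : ∀ g : (L ≃ₐ[ℚ] L), g t = t → g θ = θ) (r : ℕ)
    (h : (minpoly ℚ t).natDegree ≤ r * (minpoly ℚ θ).natDegree) :
    ((Hs θ).image fun h => h t).card ≤ r := by
  have h1 := card_Hs θ
  have h2 := card_Hs t
  have h3 : ((Hs θ).image fun h => h t).card * (Hs t).card ≤ (Hs θ).card := by
    have h4 := Finset.card_eq_sum_card_image (fun h : (L ≃ₐ[ℚ] L) => h t) (Hs θ)
    rw [h4, ← smul_eq_mul, ← sum_const]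
    refine sum_le_sum fun y hy => ?_
    obtain ⟨g, hg, rfl⟩ := mem_image.1 hy
    apply Finset.card_le_card_of_injOn (fun k => g * k)
    · intro k hk
      have hk' := (mem_Hs t k).1 hk
      rw [mem_coe, mem_filter, mem_Hs]
      refine ⟨?_, ?_⟩
      · rw [AlgEquiv.mul_apply, hθ k hk', (mem_Hs θ g).1 hg]
      · change (g * k) t = g t
        rw [AlgEquiv.mul_apply, hk']
    · intro a _ b _ hab
      exact mul_left_cancel hab
  have h5 : 0 < (Hs t).card := card_pos.2 ⟨1, by rw [mem_Hs]; rfl⟩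
  have h6 : 0 < (minpoly ℚ θ).natDegree := by
    rcases Nat.eq_zero_or_pos (minpoly ℚ θ).natDegree with h | h
    · rw [h, zero_mul] at h1
      have : 0 < Fintype.card (L ≃ₐ[ℚ] L) := Fintype.card_pos
      omega
    · exact h
  set a := ((Hs θ).image fun h => h t).card
  have h7 : (minpoly ℚ θ).natDegree * a * (Hs t).card ≤
      (minpoly ℚ θ).natDegree * r * (Hs t).card := by
    calc (minpoly ℚ θ).natDegree * a * (Hs t).card = (minpoly ℚ θ).natDegree * (a * (Hs t).card) := by
          ring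
      _ ≤ (minpoly ℚ θ).natDegree * (Hs θ).card := Nat.mul_le_mul_left _ h3
      _ = (minpoly ℚ t).natDegree * (Hs t).card := by rw [← h1, h2]
      _ ≤ (r * (minpoly ℚ θ).natDegree) * (Hs t).card := Nat.mul_le_mul_right _ h
      _ = _ := by ring
  exact Nat.le_of_mul_le_mul_left (Nat.le_of_mul_le_mul_right h7 h5) h6

end Pool.Agent.K8h8.FE
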