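import Mathlib
import Pool.Agent.K8h8.FE.Ana
import Pool.Agent.K8h8.FE.Gal
import Pool.Agent.K8h8.FE.Beta

/-!
# The main estimate
-/

set_option autoImplicit false

open Finset Polynomial IntermediateField

namespace Pool.Agent.K8h8.FE

open Pool.Agent.H892.Parry

lemma aeval_ofReal_zero {t : ℝ} {R : Type*} [CommRing R] [Algebra R ℝ] [Algebra R ℂ]
    [IsScalarTower R ℝ ℂ] {f : R[X]} (h : aeval t f = 0) : aeval (t : ℂ) f = 0 := by
  have h1 := aeval_algebraMap_apply ℂ t f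
  rw [h, map_zero] at h1
  exact h1

theorem main_bound (K : IntermediateField ℚ ℝ) [FiniteDimensional ℚ K] (r : ℕ) (hr : 1 ≤ r)
    (S : Finset ℝ) (hS : ∀ β ∈ S, IsPerron β ∧ β ≤ 1.17629 ∧
      (r ≤ 4 ∨ 3 * r * (β - 1) ≤ 2 * Real.sqrt β) ∧ K ≤ ℚ⟮β + β⁻¹⟯ ∧
      Module.finrank ℚ ℚ⟮β + β⁻¹⟯ ≤ r * Module.finrank ℚ K ∧
      ∃ n, 100 * r ^ 2 * Module.finrank ℚ K ≤ n ∧ IsParry (β ^ n)) :
    (S.card : ℝ) ≤ 40 * (r * Module.finrank ℚ K) * Real.log (2 * (r * Module.finrank ℚ K)) := by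
  classical
  set N := Module.finrank ℚ K with hN
  have hN1 : 1 ≤ N := Module.finrank_pos
  have hr1 : (1 : ℝ) ≤ r := by exact_mod_cast hr
  have hN1' : (1 : ℝ) ≤ N := by exact_mod_cast hN1
  rcases S.eq_empty_or_nonempty with hSe | hSne
  · subst hSe
    rw [card_empty, Nat.cast_zero]
    have h1 : (1 : ℝ) ≤ r * N := by nlinarith
    have h2 : 0 ≤ Real.log (2 * (r * N)) := Real.log_nonneg (by linarith)
    positivity
  -- reciprocity and integrality
  have hrec : ∀ β ∈ S, aeval β⁻¹ (minpoly ℤ β) = 0 := by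
    intro β hβ
    obtain ⟨h1, h2, -, -, h5, n, h6, h7⟩ := hS β hβ
    refine recip h1 h2 (n := n) ?_ h7
    have h8 := deg_le (by linarith [h1.1] : β ≠ 0) h1.2.1
    have h9 : r * N ≤ r ^ 2 * N := by
      rw [sq]
      exact Nat.mul_le_mul_right _ (Nat.le_mul_of_pos_right _ hr)
    have h10 : 100 * (r ^ 2 * N) = 100 * r ^ 2 * N := by ring
    omega
  have hint : ∀ β ∈ S, IsIntegral ℤ (β + β⁻¹) := fun β hβ => int_trace (hS β hβ).1 (hrec β hβ)
  have hintQ : ∀ β ∈ S, IsIntegral ℚ (β + β⁻¹) := fun β hβ => (hint β hβ).tower_top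
  -- the Galois closure
  set p : ℚ[X] := ∏ β ∈ S, minpoly ℚ (β + β⁻¹) with hp
  have hp0 : p ≠ 0 := prod_ne_zero_iff.2 fun β hβ => minpoly.ne_zero (hintQ β hβ)
  have hsplit : (p.map (algebraMap ℚ ℂ)).Splits := IsAlgClosed.splits _
  set E : IntermediateField ℚ ℂ := adjoin ℚ (p.rootSet ℂ) with hE
  have hsf : p.IsSplittingField ℚ E := adjoin_rootSet_isSplittingField hsplit
  have hfd : FiniteDimensional ℚ E := Polynomial.IsSplittingField.finiteDimensional E p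
  have hnf : NumberField E := { to_charZero := inferInstance, to_finiteDimensional := hfd }
  have hnor : Normal ℚ E := Normal.of_isSplittingField p
  have hgal : IsGalois ℚ E := ⟨⟩
  have hmem : ∀ β ∈ S, (((β + β⁻¹ : ℝ)) : ℂ) ∈ E := by
    intro β hβ
    apply subset_adjoin
    rw [mem_rootSet]
    refine ⟨hp0, ?_⟩
    rw [hp, map_prod]
    apply prod_eq_zero hβ
    exact aeval_ofReal_zero (minpoly.aeval ℚ _)
  set te : ℝ → E := fun β => if h : (((β + β⁻¹ : ℝ)) : ℂ) ∈ E then ⟨_, h⟩ else 0 with hte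
  have hte1 : ∀ β ∈ S, ((te β : E) : ℂ) = ((β + β⁻¹ : ℝ) : ℂ) := by
    intro β hβ
    simp only [hte]
    rw [dif_pos (hmem β hβ)]
  set T : Finset E := S.image te with hT
  have hcard : T.card = S.card := by
    apply card_image_of_injOn
    intro a ha b hb hab
    have h1 : ((te a : E) : ℂ) = ((te b : E) : ℂ) := by rw [hab]
    rw [hte1 a ha, hte1 b hb] at h1
    exact trace_inj (hS a ha).1.1 (hS b hb).1.1 (by exact_mod_cast h1)
  -- a generator of K
  obtain ⟨α, hα⟩ := Field.exists_primitive_element ℚ K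
  have hαN : (minpoly ℚ (α : ℝ)).natDegree = N := by
    have h1 : minpoly ℚ (algebraMap K ℝ α) = minpoly ℚ α :=
      minpoly.algebraMap_eq (algebraMap K ℝ).injective α
    have h2 : Module.finrank ℚ ℚ⟮α⟯ = (minpoly ℚ α).natDegree :=
      adjoin.finrank (Algebra.IsIntegral.isIntegral α)
    have h3 : (minpoly ℚ (α : ℝ)) = minpoly ℚ α := h1
    rw [h3, ← h2, hα, IntermediateField.finrank_top']
  have hαt : ∀ β ∈ S, ∃ a b : ℚ[X], (α : ℝ) = aeval (β + β⁻¹) a / aeval (β + β⁻¹) b := by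
    intro β hβ
    have h1 : (α : ℝ) ∈ ℚ⟮β + β⁻¹⟯ := (hS β hβ).2.2.2.1 α.2
    exact (mem_adjoin_simple_iff ℚ _).1 h1
  have hαE : ∀ β ∈ S, ∀ a b : ℚ[X], (α : ℝ) = aeval (β + β⁻¹) a / aeval (β + β⁻¹) b →
      (((α : ℝ) : ℂ)) = ((aeval (te β) a / aeval (te β) b : E) : ℂ) := by
    intro β hβ a b hab
    rw [hab]
    have h1 : ∀ q : ℚ[X], ((aeval (te β) q : E) : ℂ) = ((aeval (β + β⁻¹) q : ℝ) : ℂ) := by
      intro q
      have h2 := aeval_algebraMap_apply ℂ (β + β⁻¹) q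
      have h3 := aeval_algebraMap_apply ℂ (te β) q
      have h4 : algebraMap E ℂ (te β) = ((β + β⁻¹ : ℝ) : ℂ) := hte1 β hβ
      rw [h4] at h3
      have h5 : (algebraMap ℝ ℂ) (β + β⁻¹) = ((β + β⁻¹ : ℝ) : ℂ) := rfl
      rw [h5] at h2
      exact (h3.symm.trans h2)
    have h6 : ((aeval (te β) a / aeval (te β) b : E) : ℂ) =
        ((aeval (te β) a : E) : ℂ) / ((aeval (te β) b : E) : ℂ) := rfl
    rw [h6, h1, h1, ← Complex.ofReal_div]
  obtain ⟨β₀, hβ₀⟩ := hSne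
  obtain ⟨a₀, b₀, hab₀⟩ := hαt β₀ hβ₀
  set θ : E := aeval (te β₀) a₀ / aeval (te β₀) b₀ with hθ
  have hθα : (θ : ℂ) = ((α : ℝ) : ℂ) := (hαE β₀ hβ₀ a₀ b₀ hab₀).symm
  have hθN : (minpoly ℚ θ).natDegree = N := by
    have h1 : minpoly ℚ (algebraMap E ℂ θ) = minpoly ℚ θ :=
      minpoly.algebraMap_eq (algebraMap E ℂ).injective θ
    have h2 : minpoly ℚ (algebraMap ℝ ℂ (α : ℝ)) = minpoly ℚ (α : ℝ) :=
      minpoly.algebraMap_eq (algebraMap ℝ ℂ).injective _
    have h3 : algebraMap E ℂ θ = algebraMap ℝ ℂ (α : ℝ) := hθα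
    rw [← h1, h3, h2, hαN]
  have hdeg : ∀ β ∈ S, (minpoly ℚ (te β)).natDegree ≤ r * (minpoly ℚ θ).natDegree := by
    intro β hβ
    have h1 : minpoly ℚ (algebraMap E ℂ (te β)) = minpoly ℚ (te β) :=
      minpoly.algebraMap_eq (algebraMap E ℂ).injective _
    have h2 : minpoly ℚ (algebraMap ℝ ℂ (β + β⁻¹)) = minpoly ℚ (β + β⁻¹) :=
      minpoly.algebraMap_eq (algebraMap ℝ ℂ).injective _
    have h3 : algebraMap E ℂ (te β) = algebraMap ℝ ℂ (β + β⁻¹) := hte1 β hβ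
    rw [← h1, h3, h2, hθN, ← adjoin.finrank (hintQ β hβ)]
    exact (hS β hβ).2.2.2.2.1
  have hstab : ∀ β ∈ S, ∀ g : (E ≃ₐ[ℚ] E), g (te β) = te β → g θ = θ := by
    intro β hβ g hg
    obtain ⟨a, b, hab⟩ := hαt β hβ
    have h1 : θ = aeval (te β) a / aeval (te β) b := by
      apply Subtype.ext
      rw [hθα, hαE β hβ a b hab]
    have h3 : ∀ q : ℚ[X], g (aeval (te β) q) = aeval (te β) q := by
      intro q
      calc g (aeval (te β) q) = aeval (g (te β)) q := (aeval_algHom_apply g.toAlgHom (te β) q).symm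
        _ = _ := by rw [hg]
    rw [h1, map_div₀, h3, h3]
  -- the radius
  set n₀ : ℕ := 100 * r ^ 2 * N with hn₀
  have hn₀1 : 1 ≤ n₀ := by
    rw [hn₀]
    have : 0 < r ^ 2 := by positivity
    have h2 : 0 < r ^ 2 * N := Nat.mul_pos this hN1
    have h3 : 100 * r ^ 2 * N = 100 * (r ^ 2 * N) := by ring
    omega
  set ρ : ℝ := (2 : ℝ) ^ ((n₀ : ℝ)⁻¹) with hρ
  have hρ2 : ρ ^ n₀ = 2 := Real.rpow_inv_natCast_pow (by norm_num) (by omega)
  have hρ1 : 1 ≤ ρ := Real.one_le_rpow (by norm_num) (by positivity)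
  set ℓ : ℝ := 4 / (9 * (r : ℝ) ^ 2) with hℓ
  have hℓ0 : 0 < ℓ := by positivity
  have hSβ : ∀ t ∈ T, ∃ β ∈ S, te β = t := fun t ht => mem_image.1 ht
  obtain ⟨M, hM1, hM2, hM3⟩ := places (algebraMap E ℂ) hρ1 hℓ0 T
    (by
      intro t ht
      obtain ⟨β, hβ, rfl⟩ := hSβ t ht
      have h1 : IsIntegral ℤ (algebraMap E ℂ (te β)) := by
        have h3 : algebraMap E ℂ (te β) = algebraMap ℝ ℂ (β + β⁻¹) := hte1 β hβ
        rw [h3]
        exact (hint β hβ).algebraMap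
      exact (isIntegral_algebraMap_iff (algebraMap E ℂ).injective).1 h1)
    (by
      intro t ht
      obtain ⟨β, hβ, rfl⟩ := hSβ t ht
      obtain ⟨h1, h2, h3, -⟩ := hS β hβ
      have h4 := trace_le h1.1 h2 hr h3
      exact ⟨β + β⁻¹, h4.1, h4.2, hte1 β hβ⟩)
    (by
      intro t ht g hg
      obtain ⟨β, hβ, rfl⟩ := hSβ t ht
      obtain ⟨h1, -, -, -, -, n, h6, h7⟩ := hS β hβ
      apply region h1 (hrec β hβ) hn₀1 h6 h7 hρ1 hρ2.ge
      · have h3 : algebraMap E ℂ (te β) = algebraMap ℝ ℂ (β + β⁻¹) := hte1 β hβ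
        have h4 : aeval (te β) (minpoly ℤ (β + β⁻¹)) = 0 := by
          apply (algebraMap E ℂ).injective
          rw [← aeval_algebraMap_apply, h3, aeval_algebraMap_apply, minpoly.aeval, map_zero, map_zero]
        have h5 : aeval (g (te β)) (minpoly ℤ (β + β⁻¹)) = 0 := by
          have h8 := aeval_algHom_apply (g.toAlgHom.restrictScalars ℤ) (te β) (minpoly ℤ (β + β⁻¹))
          rw [h4, map_zero] at h8
          exact h8
        rw [aeval_algebraMap_apply, h5, map_zero]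
      · intro h8
        apply hg
        apply (algebraMap E ℂ).injective
        rw [h8]
        exact (hte1 β hβ).symm)
    θ
    (by
      intro t ht
      obtain ⟨β, hβ, rfl⟩ := hSβ t ht
      exact hstab β hβ)
    N r
    (by rw [card_Hs θ, hθN])
    (by
      intro t ht
      obtain ⟨β, hβ, rfl⟩ := hSβ t ht
      exact card_orbit_le θ (te β) (hstab β hβ) r (hdeg β hβ))
  rw [← hcard]
  have hTpos : 0 < T.card := card_pos.2 ⟨te β₀, mem_image_of_mem _ hβ₀⟩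
  exact final_bound hTpos hM1 hM2 hr hN1 hρ1 hρ2.le hℓ hM3

end Pool.Agent.K8h8.FE
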